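import Pool.Agent.H28.APN3.Fix

/-! # Affine symmetries of prime order of APN permutations: counting -/

set_option autoImplicit false

namespace Pool.Agent.H28.APN3

open Pool.Agent.H42.APN Finset Module

variable {n : ℕ} {F : Vec n → Vec n} {A B : Aff n}

theorem pow_apply_succ (A : Aff n) (k : ℕ) (x : Vec n) : (A ^ (k + 1)) x = A ((A ^ k) x) := by
  rw [pow_succ']
  rfl

theorem hc_pow (hc : ∀ x, F (A x) = B (F x)) (k : ℕ) (x : Vec n) :
    F ((A ^ k) x) = (B ^ k) (F x) := by
  induction k with
  | zero => rfl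
  | succ k ih => rw [pow_apply_succ, pow_apply_succ, hc, ih]

theorem fix_pow {x : Vec n} (hx : A x = x) (k : ℕ) : (A ^ k) x = x := by
  induction k with
  | zero => rfl
  | succ k ih => rw [pow_apply_succ, ih, hx]

theorem linear_sub (A : Aff n) (x y : Vec n) : A.linear (x + y) = A x + A y := by
  rw [aff_apply A x, aff_apply A y, map_add]
  have h : A 0 + A 0 = 0 := add_self _
  calc A.linear x + A.linear y = A.linear x + A.linear y + 0 := by rw [add_zero]
    _ = A.linear x + A.linear y + (A 0 + A 0) := by rw [h]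
    _ = A.linear x + A 0 + (A.linear y + A 0) := by abel

/-- relative to a fixed point -/
theorem disp (A : Aff n) {q : Vec n} (hq : A q = q) (x : Vec n) : A x + x = dN A (x + q) := by
  rw [dN_apply, linear_sub, hq]
  have h : q + q = 0 := add_self _
  calc A x + x = A x + x + 0 := by rw [add_zero]
    _ = A x + x + (q + q) := by rw [h]
    _ = A x + q + (x + q) := by abel

/-- the displacement of a power, relative to a fixed point -/
theorem disp_pow (A : Aff n) {q : Vec n} (hq : A q = q) (k : ℕ) (x : Vec n) :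
    (A ^ k) x + x = dN (A ^ k) (x + q) := disp (A ^ k) (fix_pow hq k) x

theorem range_pow_le (A : Aff n) {q : Vec n} (hq : A q = q) (k : ℕ) :
    LinearMap.range (dN (A ^ k)) ≤ LinearMap.range (dN A) := by
  rintro _ ⟨v, rfl⟩
  have key : ∀ k : ℕ, ∀ x : Vec n, (A ^ k) x + x ∈ LinearMap.range (dN A) := by
    intro k
    induction k with
    | zero =>
      intro x
      have : (A ^ 0) x + x = 0 := add_self x
      rw [this]
      exact Submodule.zero_mem _
    | succ k ih =>
      intro x
      have e : (A ^ (k + 1)) x + x = (A ((A ^ k) x) + (A ^ k) x) + ((A ^ k) x + x) := by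
        rw [pow_apply_succ]
        have h : (A ^ k) x + (A ^ k) x = 0 := add_self _
        calc A ((A ^ k) x) + x = A ((A ^ k) x) + x + 0 := by rw [add_zero]
          _ = A ((A ^ k) x) + x + ((A ^ k) x + (A ^ k) x) := by rw [h]
          _ = _ := by abel
      rw [e]
      refine Submodule.add_mem _ ?_ (ih x)
      rw [disp A hq]
      exact ⟨_, rfl⟩
  have h1 := key k (v + q)
  rw [disp_pow A hq, add_assoc, add_self, add_zero] at h1
  exact h1

/-- in prime order, powers generate -/
theorem exists_pow_eq {p : ℕ} (hp : p.Prime) (hA : A ^ p = 1) {j : ℕ} (hj : ¬ p ∣ j) :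
    ∃ k, (A ^ j) ^ k = A := by
  have hco : Nat.Coprime j p := ((Nat.Prime.coprime_iff_not_dvd hp).2 hj).symm
  obtain ⟨k, -, hk⟩ := Nat.exists_mul_mod_eq_one_of_coprime hco hp.one_lt
  refine ⟨k, ?_⟩
  rw [← pow_mul]
  have h1 := Nat.div_add_mod (j * k) p
  rw [hk] at h1
  rw [← h1, pow_add, pow_mul, hA, one_pow, one_mul, pow_one]

theorem fix_of_fix_pow {p : ℕ} (hp : p.Prime) (hA : A ^ p = 1) {j : ℕ} (hj : ¬ p ∣ j) {x : Vec n}
    (hx : (A ^ j) x = x) : A x = x := by
  obtain ⟨k, hk⟩ := exists_pow_eq hp hA hj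
  have := fix_pow hx k
  rwa [hk] at this

theorem range_pow_eq {p : ℕ} (hp : p.Prime) (hA : A ^ p = 1) {q : Vec n} (hq : A q = q) {j : ℕ}
    (hj : ¬ p ∣ j) : LinearMap.range (dN (A ^ j)) = LinearMap.range (dN A) := by
  refine le_antisymm (range_pow_le A hq j) ?_
  obtain ⟨k, hk⟩ := exists_pow_eq hp hA hj
  have h := range_pow_le (A ^ j) (fix_pow hq j) k
  rwa [hk] at h

/-- a point of an orbit determines the power -/
theorem pow_eq_of_apply_eq {p : ℕ} (hp : p.Prime) (hA : A ^ p = 1) {x : Vec n} (hx : A x ≠ x)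
    {i j : ℕ} (h : (A ^ i) x = (A ^ j) x) : A ^ i = A ^ j := by
  wlog hij : i ≤ j generalizing i j
  · exact (this h.symm (by omega)).symm
  obtain ⟨d, rfl⟩ := Nat.exists_eq_add_of_le hij
  have h1 : (A ^ (i + d)) x = (A ^ i) ((A ^ d) x) := by
    rw [pow_add]
    rfl
  rw [h1] at h
  have h2 : x = (A ^ d) x := (A ^ i).injective h
  have h3 : p ∣ d := by
    by_contra hd
    exact hx (fix_of_fix_pow hp hA hd h2.symm)
  obtain ⟨c, rfl⟩ := h3
  rw [pow_add, pow_mul, hA, one_pow, mul_one]

theorem B_pow (hbij : Function.Bijective F) (hc : ∀ x, F (A x) = B (F x)) {p : ℕ}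
    (hA : A ^ p = 1) : B ^ p = 1 :=
  snd_eq_one hbij (A ^ p) (B ^ p) (hc_pow hc p) hA

theorem range_finrank_lt (hF : IsAPN F) (hbij : Function.Bijective F)
    (hc : ∀ x, F (A x) = B (F x)) {p : ℕ} (hp : p.Prime) (hA : A ^ p = 1) {q x₀ : Vec n}
    (hq : A q = q) (hx₀ : A x₀ ≠ x₀) :
    (p - 1) * 2 ^ finrank (ZMod 2) (LinearMap.ker (dN A)) ≤
      2 * (2 ^ (n - finrank (ZMod 2) (LinearMap.ker (dN A))) - 1) := by
  classical
  have ha : A x₀ + x₀ ≠ 0 := ne_zero_of_ne hx₀
  set a : Vec n := A x₀ + x₀ with hadef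
  have haR : a ∈ LinearMap.range (dN A) := by
    rw [hadef, disp A hq]
    exact ⟨_, rfl⟩
  have hndvd : ∀ j ∈ Ico 1 p, ¬ p ∣ j := by
    intro j hj
    rw [mem_Ico] at hj
    exact Nat.not_dvd_of_pos_of_lt (by omega) hj.2
  -- the sets
  let X : ℕ → Finset (Vec n) := fun j => univ.filter (fun x : Vec n => (A ^ j) x = x + a)
  have hX : ∀ j ∈ Ico 1 p, (X j).card = 2 ^ finrank (ZMod 2) (LinearMap.ker (dN A)) := by
    intro j hj
    have hr := range_pow_eq hp hA hq (hndvd j hj)
    obtain ⟨z, hz⟩ : a ∈ LinearMap.range (dN (A ^ j)) := by rw [hr]; exact haR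
    have hk : finrank (ZMod 2) (LinearMap.ker (dN (A ^ j))) =
        finrank (ZMod 2) (LinearMap.ker (dN A)) := by
      have h1 := finrank_sum (dN (A ^ j))
      have h2 := finrank_sum (dN A)
      rw [hr] at h1
      omega
    rw [← hk, ← card_fibre (dN (A ^ j)) (z + q) (dN (A ^ j) (z + q)) rfl]
    refine congrArg Finset.card ?_
    ext x
    show x ∈ univ.filter _ ↔ _
    rw [mem_filter, mem_filter]
    refine and_congr_right fun _ => ?_
    have h1 := disp_pow A hq j x
    constructor
    · intro h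
      rw [h] at h1
      have h2 : x + a + x = a := by
        rw [add_comm x a, add_assoc, add_self, add_zero]
      rw [h2, ← hz, map_add] at h1
      have h3 : dN (A ^ j) x + dN (A ^ j) q + dN (A ^ j) q = dN (A ^ j) z + dN (A ^ j) q := by
        rw [h1]
      rw [add_assoc, add_self, add_zero] at h3
      rw [h3, map_add]
    · intro h
      rw [map_add, h, map_add, add_assoc, add_self, add_zero, hz] at h1
      rw [← h1, add_comm x, add_assoc, add_self, add_zero]
  have hdisj : ∀ i ∈ Ico 1 p, ∀ j ∈ Ico 1 p, i ≠ j → Disjoint (X i) (X j) := by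
    intro i hi j hj hij
    rw [disjoint_left]
    intro x hxi hxj
    have h1 : (A ^ i) x = x + a := (mem_filter.1 hxi).2
    have h2 : (A ^ j) x = x + a := (mem_filter.1 hxj).2
    by_cases hx : A x = x
    · rw [fix_pow hx] at h1
      apply ha
      have h3 : x + 0 = x + a := by rw [add_zero]; exact h1
      exact (add_left_cancel h3).symm
    · -- the powers agree
      have h3 : (A ^ i) x = (A ^ j) x := by rw [h1, h2]
      have h4 := pow_eq_of_apply_eq hp hA hx h3
      rw [mem_Ico] at hi hj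
      -- difference not divisible by p
      rcases lt_or_gt_of_ne hij with h | h
      · obtain ⟨d, rfl⟩ := Nat.exists_eq_add_of_le h.le
        have h5 : (A ^ (i + d)) x = (A ^ i) ((A ^ d) x) := by rw [pow_add]; rfl
        rw [h5] at h3
        have h6 : (A ^ d) x = x := ((A ^ i).injective h3).symm
        exact hx (fix_of_fix_pow hp hA (Nat.not_dvd_of_pos_of_lt (by omega) (by omega)) h6)
      · obtain ⟨d, rfl⟩ := Nat.exists_eq_add_of_le h.le
        have h5 : (A ^ (j + d)) x = (A ^ j) ((A ^ d) x) := by rw [pow_add]; rfl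
        rw [h5] at h3
        have h6 : (A ^ d) x = x := (A ^ j).injective h3
        exact hx (fix_of_fix_pow hp hA (Nat.not_dvd_of_pos_of_lt (by omega) (by omega)) h6)
  have hcard : ((Ico 1 p).biUnion X).card =
      (p - 1) * 2 ^ finrank (ZMod 2) (LinearMap.ker (dN A)) := by
    rw [card_biUnion (fun i hi j hj hij => hdisj i hi j hj hij), sum_congr rfl hX, sum_const,
      Nat.card_Ico, smul_eq_mul]
  rw [← hcard]
  have hBq : B (F q) = F q := fix_image hc hq
  have hBq' : dN B (F q) = B 0 := ((lin_aff B).fix_iff _).1 hBq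
  have hk := finrank_ker_eq hbij (lin_aff A) (lin_aff B) hc hq
  have h2 := card_valS_lt hBq'
  have hs' := finrank_sum (dN B)
  have h3 : ((Ico 1 p).biUnion X).card ≤ 2 * (valS (dN B) (B 0)).card := by
    refine card_le_two_mul hF ha _ _ ?_
    intro x hx
    rw [mem_biUnion] at hx
    obtain ⟨j, hj, hx⟩ := hx
    have h1 : (A ^ j) x = x + a := (mem_filter.1 hx).2
    have h4 : F (x + a) + F x = (B ^ j) (F x) + F x := by rw [← h1, hc_pow hc]
    have h5 : F (x + a) + F x ∈ LinearMap.range (dN B) := by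
      rw [h4, disp_pow B hBq]
      exact range_pow_le B hBq j ⟨_, rfl⟩
    obtain ⟨w, hw⟩ := h5
    unfold valS
    rw [mem_filter]
    refine ⟨mem_univ _, ⟨w + F q, ?_⟩, ?_⟩
    · rw [map_add, hBq', add_assoc, add_self, add_zero, hw]
    · intro h0
      have h6 := hbij.1 (eq_of_add_eq_zero h0)
      apply ha
      have h7 : x + a = x + 0 := by rw [add_zero]; exact h6
      exact add_left_cancel h7
  have h4 : n - finrank (ZMod 2) (LinearMap.ker (dN A)) = finrank (ZMod 2) (LinearMap.range (dN B)) := by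
    rw [hk]
    omega
  rw [h4]
  omega

/-- the action on points -/
def asEnd : Aff n →* Function.End (Vec n) where
  toFun A := fun x => A x
  map_one' := rfl
  map_mul' _ _ := rfl

/-- existence of fixed points and the congruence -/
theorem exists_fixed {p : ℕ} (hp : p.Prime) (hp2 : p ≠ 2) (hA : A ^ p = 1) :
    (∃ q, A q = q) ∧ 2 ^ n ≡ 2 ^ finrank (ZMod 2) (LinearMap.ker (dN A)) [MOD p] := by
  have : Fact (Nat.Prime p) := ⟨hp⟩
  have hpow : (asEnd A) ^ p ^ 1 = 1 := by
    rw [pow_one, ← map_pow, hA, map_one]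
  have hmod : Fintype.card (Vec n) ≡
      Fintype.card (Function.fixedPoints (fun x : Vec n => A x)) [MOD p] :=
    Equiv.Perm.card_fixedPoints_modEq (α := Vec n) (f := asEnd A) (p := p) (n := 1) hpow
  have hfc : Fintype.card (Function.fixedPoints (fun x : Vec n => A x)) =
      (univ.filter (fun x : Vec n => A x = x)).card := by
    rw [← Fintype.card_subtype]
    rfl
  rw [hfc] at hmod
  have hV : Fintype.card (Vec n) = 2 ^ n := by
    rw [Fintype.card_fun, ZMod.card, Fintype.card_fin]
  rw [hV] at hmod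
  have hex : ∃ q, A q = q := by
    by_contra h
    push Not at h
    have h5 : (univ.filter (fun x : Vec n => A x = x)) = ∅ := by
      rw [filter_eq_empty_iff]
      intro x _
      exact h x
    rw [h5, card_empty] at hmod
    have h6 : p ∣ 2 ^ n := (Nat.modEq_zero_iff_dvd).1 hmod
    have h7 := hp.dvd_of_dvd_pow h6
    exact hp2 ((Nat.prime_dvd_prime_iff_eq hp Nat.prime_two).1 h7)
  refine ⟨hex, ?_⟩
  obtain ⟨q, hq⟩ := hex
  have h6 := (lin_aff A).card_fix hq
  have h6' : (univ.filter (fun x : Vec n => A x = x)).card =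
      2 ^ finrank (ZMod 2) (LinearMap.ker (dN A)) := by
    rw [← h6]
  rwa [h6'] at hmod

end Pool.Agent.H28.APN3
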