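import Pool.Agent.H28.APN3.FieldLemma

/-! # The field generated by a cyclic linear map -/

set_option autoImplicit false

namespace Pool.Agent.H28.APN3

open Finset

/-- the powers of `γ` applied to `w0` exhaust the nonzero vectors -/
structure Cyc {W : Type} [AddCommGroup W] [Module (ZMod 2) W] (γ : Module.End (ZMod 2) W) (w0 : W)
    (p : ℕ) : Prop where
  p0 : 0 < p
  hp : γ ^ p = 1
  w0ne : w0 ≠ 0
  tr : ∀ w : W, w ≠ 0 → ∃ i : ℕ, (γ ^ i) w0 = w

variable {W : Type} [AddCommGroup W] [Module (ZMod 2) W] {γ : Module.End (ZMod 2) W} {w0 : W}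
  {p : ℕ}

theorem Cyc.ext (h : Cyc γ w0 p) {x y : Module.End (ZMod 2) W} (hx : Commute x γ)
    (hy : Commute y γ) (he : x w0 = y w0) : x = y := by
  ext v
  by_cases hv : v = 0
  · rw [hv, map_zero, map_zero]
  · obtain ⟨m, rfl⟩ := h.tr v hv
    have h1 : (x * γ ^ m) w0 = (γ ^ m * x) w0 := by rw [(hx.pow_right m).eq]
    have h2 : (y * γ ^ m) w0 = (γ ^ m * y) w0 := by rw [(hy.pow_right m).eq]
    rw [Module.End.mul_apply, Module.End.mul_apply] at h1 h2
    rw [h1, h2, he]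

theorem wself (w : W) : w + w = 0 := ZModModule.add_self w

/-- zero and the powers -/
def Cyc.ring (h : Cyc γ w0 p) : Subring (Module.End (ZMod 2) W) where
  carrier := {x | x = 0 ∨ ∃ i : ℕ, x = γ ^ i}
  mul_mem' := by
    rintro x y (rfl | ⟨i, rfl⟩) (rfl | ⟨j, rfl⟩)
    · left; simp
    · left; simp
    · left; simp
    · right; exact ⟨i + j, (pow_add γ i j).symm⟩
  one_mem' := Or.inr ⟨0, (pow_zero γ).symm⟩
  add_mem' := by
    rintro x y (rfl | ⟨i, rfl⟩) (rfl | ⟨j, rfl⟩)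
    · left; simp
    · right; exact ⟨j, zero_add _⟩
    · right; exact ⟨i, add_zero _⟩
    · have hc : Commute (γ ^ i + γ ^ j) γ :=
        ((Commute.refl γ).pow_left i).add_left ((Commute.refl γ).pow_left j)
      by_cases hw : (γ ^ i + γ ^ j) w0 = 0
      · left
        exact h.ext hc (Commute.zero_left γ) (by rw [hw]; rfl)
      · right
        obtain ⟨k, hk⟩ := h.tr _ hw
        exact ⟨k, h.ext hc ((Commute.refl γ).pow_left k) hk.symm⟩
  zero_mem' := Or.inl rfl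
  neg_mem' := by
    rintro x (rfl | ⟨i, rfl⟩)
    · left; simp
    · right
      refine ⟨i, ?_⟩
      ext v
      show -((γ ^ i) v) = (γ ^ i) v
      exact ZModModule.neg_eq_self _

theorem Cyc.mem (h : Cyc γ w0 p) {x : Module.End (ZMod 2) W} (hx : x ∈ h.ring) :
    x = 0 ∨ ∃ i : ℕ, x = γ ^ i := hx

/-- a power, as an element of the ring -/
def Cyc.pw (h : Cyc γ w0 p) (i : ℕ) : h.ring := ⟨γ ^ i, Or.inr ⟨i, rfl⟩⟩

theorem Cyc.ne_zero_iff (h : Cyc γ w0 p) (x : h.ring) (hx : x ≠ 0) : ∃ i, x = h.pw i := by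
  rcases h.mem x.2 with h1 | ⟨i, h1⟩
  · exact absurd (Subtype.ext h1) hx
  · exact ⟨i, Subtype.ext h1⟩

theorem Cyc.pw_mul (h : Cyc γ w0 p) (i j : ℕ) : h.pw i * h.pw j = h.pw (i + j) :=
  Subtype.ext (pow_add γ i j).symm

theorem Cyc.pw_zero (h : Cyc γ w0 p) : h.pw 0 = 1 := Subtype.ext (pow_zero γ)

theorem Cyc.pow_ne (h : Cyc γ w0 p) (i : ℕ) : (γ ^ i) w0 ≠ 0 := by
  intro h0
  apply h.w0ne
  have h1 : (γ ^ (p * i)) w0 = w0 := by
    rw [pow_mul, h.hp, one_pow]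
    rfl
  obtain ⟨d, hd⟩ : ∃ d, p * i = d + i := ⟨p * i - i, by
    have := Nat.le_mul_of_pos_left i h.p0
    omega⟩
  rw [hd, pow_add, Module.End.mul_apply, h0, map_zero] at h1
  exact h1.symm

theorem Cyc.pw_ne (h : Cyc γ w0 p) (i : ℕ) : h.pw i ≠ 0 := by
  intro h0
  apply h.pow_ne i
  have h1 : γ ^ i = 0 := congrArg Subtype.val h0
  rw [h1]
  rfl

theorem Cyc.isField (h : Cyc γ w0 p) : IsField h.ring where
  exists_pair_ne := ⟨0, 1, by
    intro h0
    apply h.pw_ne 0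
    rw [h.pw_zero, h0]⟩
  mul_comm := by
    intro x y
    by_cases hx : x = 0
    · rw [hx, zero_mul, mul_zero]
    · by_cases hy : y = 0
      · rw [hy, zero_mul, mul_zero]
      · obtain ⟨i, rfl⟩ := h.ne_zero_iff x hx
        obtain ⟨j, rfl⟩ := h.ne_zero_iff y hy
        rw [h.pw_mul, h.pw_mul, add_comm]
  mul_inv_cancel := by
    intro x hx
    obtain ⟨i, rfl⟩ := h.ne_zero_iff x hx
    refine ⟨h.pw (p * i - i), ?_⟩
    rw [h.pw_mul]
    have h1 : i + (p * i - i) = p * i := by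
      have := Nat.le_mul_of_pos_left i h.p0
      omega
    rw [h1]
    apply Subtype.ext
    show γ ^ (p * i) = 1
    rw [pow_mul, h.hp, one_pow]

theorem Cyc.two (h : Cyc γ w0 p) : (2 : h.ring) = 0 := by
  have e : (2 : h.ring) = 1 + 1 := by norm_num
  rw [e]
  apply Subtype.ext
  ext v
  show v + v = 0
  exact wself v

/-- evaluation at `w0` -/
theorem Cyc.eval_inj (h : Cyc γ w0 p) {x y : h.ring}
    (he : (x : Module.End (ZMod 2) W) w0 = (y : Module.End (ZMod 2) W) w0) : x = y := by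
  have hc : ∀ z : h.ring, Commute (z : Module.End (ZMod 2) W) γ := by
    intro z
    rcases h.mem z.2 with h1 | ⟨i, h1⟩
    · rw [h1]; exact Commute.zero_left γ
    · rw [h1]; exact (Commute.refl γ).pow_left i
  exact Subtype.ext (h.ext (hc x) (hc y) he)

theorem Cyc.eval_bij (h : Cyc γ w0 p) :
    Function.Bijective (fun x : h.ring => (x : Module.End (ZMod 2) W) w0) := by
  refine ⟨fun x y he => h.eval_inj he, ?_⟩
  intro w
  by_cases hw : w = 0
  · exact ⟨0, by rw [hw]; rfl⟩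
  · obtain ⟨i, hi⟩ := h.tr w hw
    exact ⟨h.pw i, hi⟩

theorem Cyc.card (h : Cyc γ w0 p) [Fintype W] [Fintype h.ring] :
    Fintype.card h.ring = Fintype.card W := Fintype.card_of_bijective h.eval_bij

/-- the correspondence of powers -/
theorem exists_psi {W' : Type} [AddCommGroup W'] [Module (ZMod 2) W']
    {θ : Module.End (ZMod 2) W'} {v : W'} (h : Cyc γ w0 p) (h' : Cyc θ v p)
    (H : ∀ i j : ℕ, γ ^ i = γ ^ j ↔ θ ^ i = θ ^ j) :
    ∃ ψ : h.ring → h'.ring, ψ 0 = 0 ∧ (∀ i, ψ (h.pw i) = h'.pw i) ∧ Function.Injective ψ ∧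
      ∀ x, ψ (x ^ 2) = ψ x ^ 2 := by
  classical
  choose! g hg using h.ne_zero_iff
  let ψ : h.ring → h'.ring := fun x => if x = 0 then 0 else h'.pw (g x)
  have h0 : ψ 0 = 0 := if_pos rfl
  have hpw : ∀ i, ψ (h.pw i) = h'.pw i := by
    intro i
    have h1 : ψ (h.pw i) = h'.pw (g (h.pw i)) := if_neg (h.pw_ne i)
    rw [h1]
    apply Subtype.ext
    refine (H _ _).1 ?_
    exact (congrArg Subtype.val (hg _ (h.pw_ne i))).symm
  refine ⟨ψ, h0, hpw, ?_, ?_⟩
  · intro x y hxy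
    by_cases hx : x = 0
    · by_cases hy : y = 0
      · rw [hx, hy]
      · exfalso
        obtain ⟨j, rfl⟩ := h.ne_zero_iff y hy
        rw [hx, h0, hpw] at hxy
        exact h'.pw_ne j hxy.symm
    · obtain ⟨i, rfl⟩ := h.ne_zero_iff x hx
      by_cases hy : y = 0
      · exfalso
        rw [hy, h0, hpw] at hxy
        exact h'.pw_ne i hxy
      · obtain ⟨j, rfl⟩ := h.ne_zero_iff y hy
        rw [hpw, hpw] at hxy
        exact Subtype.ext ((H i j).2 (congrArg Subtype.val hxy))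
  · intro x
    by_cases hx : x = 0
    · rw [hx, h0, zero_pow two_ne_zero, h0, zero_pow two_ne_zero]
    · obtain ⟨i, rfl⟩ := h.ne_zero_iff x hx
      rw [sq, h.pw_mul, hpw, hpw, sq, h'.pw_mul]

/-- the lemma for rings that are fields -/
theorem ring_lemma {K L : Type} [Ring K] [Ring L] [Fintype K] [Fintype L]
    (hK : IsField K) (hL : IsField L)
    (h2K : (2 : K) = 0) (h2L : (2 : L) = 0) (hcard : Fintype.card K = Fintype.card L)
    (h5 : 5 ≤ Fintype.card L) (ψ : K → L) (hinj : Function.Injective ψ)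
    (hψ : ∀ x, ψ (x ^ 2) = ψ x ^ 2) (r : L) (hr : r ≠ 0)
    (ha : ∀ x y : K, x ≠ 0 → x ≠ 1 → y ≠ 0 → y ≠ 1 → ψ x + ψ (x + 1) = ψ y + ψ (y + 1) →
      y = x ∨ y = x + 1)
    (hb : ∀ x y : K, x ≠ 0 → x ≠ 1 → y ≠ 0 → y ≠ 1 →
      ψ x + ψ (x + 1) ≠ r * (ψ y + ψ (y + 1))) : False := by
  let _ := hK.toField
  let _ := hL.toField
  exact field_lemma h2K h2L hcard h5 ψ hinj hψ r hr ha hb

end Pool.Agent.H28.APN3
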