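import Mathlib

/-!
Affine permutations and affine symmetries of functions on the vector space of dimension `n` over the
field with two elements.
-/

namespace APN

/-- The vector space of dimension `n` over the field with two elements. -/
abbrev V (n : ℕ) : Type := Fin n → ZMod 2

/-- `F` is an APN permutation. -/
def APNPerm {n : ℕ} (F : V n → V n) : Prop :=
  Function.Bijective F ∧ ∀ a b : V n, a ≠ 0 → Set.ncard {x | F (x + a) - F x = b} ≤ 2

/-- `A` is an affine permutation: a bijection such that `A x - A 0` is additive in `x`. -/
def AffinePerm {n : ℕ} (A : V n → V n) : Prop :=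
  Function.Bijective A ∧ ∀ x y : V n, A (x + y) - A 0 = (A x - A 0) + (A y - A 0)

/-- The affine symmetries of `F`: the pairs `(A, B)` of affine permutations with `F (A x) = B (F x)`
for all `x`. They form a group under composition. -/
def Sym {n : ℕ} (F : V n → V n) : Set ((V n → V n) × (V n → V n)) :=
  {p | AffinePerm p.1 ∧ AffinePerm p.2 ∧ ∀ x, F (p.1 x) = p.2 (F x)}

/-- The number of fixed points of `A`. -/
noncomputable def fix {n : ℕ} (A : V n → V n) : ℕ := Set.ncard {x | A x = x}

end APN
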