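import Mathlib

/-! # A lemma on multiplicative maps of finite fields of characteristic two -/

set_option autoImplicit false

namespace Pool.Agent.H28.APN3

open Finset

/-- Let `ψ` be injective and compatible with squares. It is impossible that `x ↦ ψ x + ψ (x+1)` is
two-to-one outside `0, 1` and that its image `S` there is disjoint from `r S`. -/
theorem field_lemma {K L : Type} [Field K] [Field L] [Fintype K] [Fintype L]
    (h2K : (2 : K) = 0) (h2L : (2 : L) = 0) (hcard : Fintype.card K = Fintype.card L)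
    (h5 : 5 ≤ Fintype.card L) (ψ : K → L) (hinj : Function.Injective ψ)
    (hψ : ∀ x, ψ (x ^ 2) = ψ x ^ 2) (r : L) (hr : r ≠ 0)
    (ha : ∀ x y : K, x ≠ 0 → x ≠ 1 → y ≠ 0 → y ≠ 1 → ψ x + ψ (x + 1) = ψ y + ψ (y + 1) →
      y = x ∨ y = x + 1)
    (hb : ∀ x y : K, x ≠ 0 → x ≠ 1 → y ≠ 0 → y ≠ 1 →
      ψ x + ψ (x + 1) ≠ r * (ψ y + ψ (y + 1))) : False := by
  classical
  have : CharP L 2 := CharTwo.of_one_ne_zero_of_two_eq_zero one_ne_zero h2L
  have : CharP K 2 := CharTwo.of_one_ne_zero_of_two_eq_zero one_ne_zero h2K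
  have hLL : ∀ x : L, x + x = 0 := CharTwo.add_self_eq_zero
  have hKK : ∀ x : K, x + x = 0 := CharTwo.add_self_eq_zero
  set D : K → L := fun x => ψ x + ψ (x + 1) with hD
  have hDD : ∀ x, D (x + 1) = D x := by
    intro x
    show ψ (x + 1) + ψ (x + 1 + 1) = ψ x + ψ (x + 1)
    rw [add_assoc x 1 1, hKK, add_zero, add_comm]
  have hDsq : ∀ x, D (x ^ 2) = D x ^ 2 := by
    intro x
    show ψ (x ^ 2) + ψ (x ^ 2 + 1) = (ψ x + ψ (x + 1)) ^ 2
    have e : x ^ 2 + 1 = (x + 1) ^ 2 := by
      have h3 : (x + 1) ^ 2 = x ^ 2 + 1 + 2 * x := by ring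
      rw [h3, h2K, zero_mul, add_zero]
    rw [e, hψ, hψ]
    have h4 : (ψ x + ψ (x + 1)) ^ 2 = ψ x ^ 2 + ψ (x + 1) ^ 2 + 2 * (ψ x * ψ (x + 1)) := by ring
    rw [h4, h2L, zero_mul, add_zero]
  set X : Finset K := (univ.erase 0).erase 1 with hX
  have hXm : ∀ x, x ∈ X ↔ x ≠ 0 ∧ x ≠ 1 := by
    intro x
    simp only [hX, mem_erase, mem_univ, and_true]
    tauto
  have hXcard : X.card = Fintype.card L - 2 := by
    rw [hX, card_erase_of_mem (by simp), card_erase_of_mem (mem_univ _), card_univ, hcard]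
    omega
  have hX1 : ∀ x ∈ X, x + 1 ∈ X := by
    intro x hx
    rw [hXm] at hx ⊢
    constructor
    · intro h
      apply hx.2
      have : x + 1 + 1 = 0 + 1 := by rw [h]
      rw [add_assoc, hKK, add_zero, zero_add] at this
      exact this
    · intro h
      apply hx.1
      have : x + 1 + 1 = 1 + 1 := by rw [h]
      rw [add_assoc, hKK, add_zero] at this
      exact this
  set S : Finset L := X.image D with hS
  have hScard : 2 * S.card = Fintype.card L - 2 := by
    rw [← hXcard, card_eq_sum_card_image D X, ← hS]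
    have h1 : ∀ s ∈ S, (X.filter (fun x => D x = s)).card = 2 := by
      intro s hs
      rw [hS, mem_image] at hs
      obtain ⟨x, hx, rfl⟩ := hs
      have h2 : X.filter (fun y => D y = D x) = {x, x + 1} := by
        ext y
        rw [mem_filter, mem_insert, mem_singleton]
        constructor
        · rintro ⟨hy, hxy⟩
          rw [hXm] at hx hy
          exact ha x y hx.1 hx.2 hy.1 hy.2 hxy.symm
        · rintro (rfl | rfl)
          · exact ⟨hx, rfl⟩
          · exact ⟨hX1 x hx, hDD x⟩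
      rw [h2, card_pair]
      intro h
      have h3 : x + 0 = x + 1 := by rw [add_zero]; exact h
      exact zero_ne_one (add_left_cancel h3)
    rw [sum_congr rfl h1, sum_const, smul_eq_mul, mul_comm]
  have hS0 : ∀ s ∈ S, s ≠ 0 := by
    intro s hs h0
    rw [hS, mem_image] at hs
    obtain ⟨x, hx, rfl⟩ := hs
    have h3 : ψ x + ψ (x + 1) = 0 := h0
    have h4 : ψ x = ψ (x + 1) := by
      have := congrArg (fun t => t + ψ (x + 1)) h3
      simp only [add_assoc, hLL, add_zero, zero_add] at this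
      exact this
    have h5 := hinj h4
    have h6 : x + 0 = x + 1 := by rw [add_zero]; exact h5
    exact zero_ne_one (add_left_cancel h6)
  set T : Finset L := S.image (fun s => r * s) with hT
  have hTcard : T.card = S.card := card_image_of_injective _ (mul_right_injective₀ hr)
  have hST : Disjoint S T := by
    rw [disjoint_left]
    intro s hs ht
    rw [hT, mem_image] at ht
    obtain ⟨t, ht, rfl⟩ := ht
    rw [hS, mem_image] at hs ht
    obtain ⟨y, hy, rfl⟩ := ht
    obtain ⟨x, hx, hxy⟩ := hs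
    rw [hXm] at hx hy
    exact hb x y hx.1 hx.2 hy.1 hy.2 hxy
  have hsub : S ∪ T ⊆ univ.erase 0 := by
    intro s hs
    rw [mem_erase]
    refine ⟨?_, mem_univ _⟩
    rcases mem_union.1 hs with h | h
    · exact hS0 s h
    · rw [hT, mem_image] at h
      obtain ⟨t, ht, rfl⟩ := h
      exact mul_ne_zero hr (hS0 t ht)
  have hrest : ((univ.erase 0) \ (S ∪ T)).card = 1 := by
    rw [card_sdiff_of_subset hsub, card_union_of_disjoint hST, hTcard,
      card_erase_of_mem (mem_univ _), card_univ]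
    omega
  obtain ⟨τ, hτ⟩ := card_eq_one.1 hrest
  have hτ0 : τ ≠ 0 := by
    have h1 : τ ∈ (univ.erase 0) \ (S ∪ T) := by rw [hτ]; exact mem_singleton_self _
    rw [mem_sdiff, mem_erase] at h1
    exact h1.1.1
  have sqinj : Function.Injective (fun s : L => s ^ 2) := by
    intro s t hst
    have h3 : (s + t) ^ 2 = 0 := by
      have h4 : (s + t) ^ 2 = s ^ 2 + t ^ 2 + 2 * (s * t) := by ring
      have hst' : s ^ 2 = t ^ 2 := hst
      rw [h4, h2L, zero_mul, add_zero, hst', hLL]
    have h5 : s + t = 0 := pow_eq_zero_iff (by norm_num) |>.1 h3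
    have h6 := congrArg (fun u => u + t) h5
    simp only [add_assoc, hLL, add_zero, zero_add] at h6
    exact h6
  have hsq : ∀ k : ℕ, (∑ s ∈ S, s ^ k) ^ 2 = ∑ s ∈ S, s ^ k := by
    intro k
    rw [CharTwo.sum_sq]
    have himg : S.image (fun s => s ^ 2) = S := by
      refine eq_of_subset_of_card_le ?_ ?_
      · intro s hs
        rw [mem_image] at hs
        obtain ⟨t, ht, rfl⟩ := hs
        rw [hS, mem_image] at ht ⊢
        obtain ⟨x, hx, rfl⟩ := ht
        refine ⟨x ^ 2, ?_, hDsq x⟩
        rw [hXm] at hx ⊢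
        refine ⟨pow_ne_zero 2 hx.1, ?_⟩
        intro h
        apply hx.2
        have h3 : (x + 1) ^ 2 = 0 := by
          have h4 : (x + 1) ^ 2 = x ^ 2 + 1 + 2 * x := by ring
          rw [h4, h, h2K, zero_mul, add_zero, hKK]
        have h5 : x + 1 = 0 := pow_eq_zero_iff (by norm_num) |>.1 h3
        have : x + 1 + 1 = 0 + 1 := by rw [h5]
        rw [add_assoc, hKK, add_zero, zero_add] at this
        exact this
      · exact (card_image_of_injective S sqinj).ge
    have hi : ∑ s ∈ S.image (fun s => s ^ 2), s ^ k = ∑ s ∈ S, (s ^ 2) ^ k :=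
      sum_image (s := S) (g := fun s : L => s ^ 2) (f := fun s : L => s ^ k)
        (fun s _ t _ hst => sqinj hst)
    rw [himg] at hi
    rw [hi]
    refine sum_congr rfl fun s _ => ?_
    rw [← pow_mul, ← pow_mul, mul_comm]
  have hP01 : ∀ k : ℕ, (∑ s ∈ S, s ^ k) = 0 ∨ (∑ s ∈ S, s ^ k) = 1 := by
    intro k
    have h1 := hsq k
    have h2 : (∑ s ∈ S, s ^ k) * ((∑ s ∈ S, s ^ k) - 1) = 0 := by
      rw [mul_sub, ← sq, h1, mul_one, sub_self]
    rcases mul_eq_zero.1 h2 with h | h
    · exact Or.inl h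
    · exact Or.inr (sub_eq_zero.1 h)
  have hsum : ∀ k : ℕ, k ≠ 0 → k < Fintype.card L - 1 →
      (∑ s ∈ S, s ^ k) + r ^ k * (∑ s ∈ S, s ^ k) + τ ^ k = 0 := by
    intro k hk0 hk
    have h1 := FiniteField.sum_pow_lt_card_sub_one L k hk
    rw [← add_sum_erase univ _ (mem_univ (0 : L)), zero_pow hk0, zero_add] at h1
    rw [← sum_sdiff hsub, hτ, sum_singleton, sum_union hST] at h1
    have h2 : ∑ x ∈ T, x ^ k = r ^ k * ∑ s ∈ S, s ^ k := by
      rw [hT, sum_image (fun s _ t _ hst => mul_right_injective₀ hr hst), mul_sum]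
      refine sum_congr rfl fun s _ => ?_
      rw [mul_pow]
    rw [h2] at h1
    rw [← h1]
    ring
  have h1 := hsum 1 one_ne_zero (by omega)
  have h3 := hsum 3 (by norm_num) (by omega)
  have e1 : τ = 1 + r := by
    rcases hP01 1 with h | h
    · rw [h] at h1
      exfalso
      apply hτ0
      simpa using h1
    · rw [h] at h1
      have h4 := congrArg (fun u => u + τ) h1
      simp only [add_assoc, pow_one, hLL, add_zero, zero_add, mul_one] at h4
      exact h4.symm
  rcases hP01 3 with h | h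
  · rw [h] at h3
    apply hτ0
    simp only [mul_zero, zero_add] at h3
    exact pow_eq_zero_iff (by norm_num) |>.1 h3
  · rw [h, e1] at h3
    have h4 : (1 : L) + r ^ 3 * 1 + (1 + r) ^ 3 = r * (1 + r) + 2 * (1 + r + r ^ 2 + r ^ 3) := by
      ring
    rw [h4, h2L, zero_mul, add_zero] at h3
    rcases mul_eq_zero.1 h3 with h | h
    · exact hr h
    · exact hτ0 (by rw [e1, h])

end Pool.Agent.H28.APN3
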