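import Pool.Agent.H28.APN3.Ten

/-! # Affine symmetries of APN permutations: final statements -/

set_option autoImplicit false

namespace Pool.Agent.H28.APN3

open Pool.Agent.H42.APN Finset Module

variable {n : ℕ} {F : Vec n → Vec n} {A B : Aff n}

theorem card_sub (A : Aff n) : Nat.card {x : Vec n // A x = x} =
    (univ.filter (fun x : Vec n => A x = x)).card := by
  rw [Nat.card_eq_fintype_card, Fintype.card_subtype]

theorem general (hn : Even n) (hF : IsAPN F) (hbij : Function.Bijective F)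
    (hc : ∀ x, F (A x) = B (F x)) :
    Nat.card {x : Vec n // A x = x} ≠ 4 ∧ Nat.card {x : Vec n // A x = x} ≠ 16 ∧
      (orderOf A = 3 → 14 ≤ n ∧ 64 ≤ Nat.card {x : Vec n // A x = x}) := by
  refine ⟨?_, ?_, ?_⟩
  · intro h
    rw [card_sub] at h
    exact card_fix_ne_four hF hbij hc h
  · intro h
    rw [card_sub] at h
    have hex : ∃ q, A q = q := by
      by_contra hno
      push Not at hno
      have h5 : (univ.filter (fun x : Vec n => A x = x)) = ∅ := by
        rw [filter_eq_empty_iff]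
        intro x _
        exact hno x
      rw [h5, card_empty] at h
      omega
    obtain ⟨q, hq⟩ := hex
    have hfix := (lin_aff A).card_fix hq
    have hfix' : (univ.filter (fun x : Vec n => A x = x)).card =
        2 ^ finrank (ZMod 2) (LinearMap.ker (dN A)) := by
      rw [← hfix]
    rw [hfix'] at h
    have h4 : finrank (ZMod 2) (LinearMap.ker (dN A)) = 4 := by
      have h16 : 2 ^ finrank (ZMod 2) (LinearMap.ker (dN A)) = 2 ^ 4 := by rw [h]; norm_num
      exact Nat.pow_right_injective le_rfl h16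
    exact finrank_ne_four hF hbij hc hq h4
  · intro h3
    have hne : A ≠ 1 := by
      rintro rfl
      rw [orderOf_one] at h3
      omega
    have hA : A * (A * A) = 1 := by
      have e : A ^ 3 = A * (A * A) := by rw [pow_succ', sq]
      rw [← e, ← h3, pow_orderOf_eq_one]
    have h64 := no_three hn hF hbij hc hA hne
    rw [← card_sub] at h64
    have hfew := few_fixed hF hbij A B hc hne
    refine ⟨?_, h64⟩
    by_contra hlt
    have hn12 : n ≤ 12 := by
      obtain ⟨m, hm⟩ := hn
      omega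
    have h1 : 2 ^ n ≤ 2 ^ 12 := Nat.pow_le_pow_right (by norm_num) hn12
    have h2 : 64 ^ 2 ≤ (Nat.card {x : Vec n // A x = x}) ^ 2 := Nat.pow_le_pow_left h64 2
    have e1 : (2 : ℕ) ^ 12 = 4096 := by norm_num
    have e2 : (64 : ℕ) ^ 2 = 4096 := by norm_num
    rw [e1] at h1
    rw [e2] at h2
    omega

theorem one_fixed (h8 : n = 8) (hF : IsAPN F) (hbij : Function.Bijective F)
    (hc : ∀ x, F (A x) = B (F x)) (hne : A ≠ 1) : Nat.card {x : Vec n // A x = x} = 1 := by
  have hn : Even n := by rw [h8]; exact ⟨4, rfl⟩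
  rw [card_sub]
  let g : Sym F := ⟨(A, B), hc⟩
  have hg : g ≠ 1 := by
    intro h
    apply hne
    exact congrArg (fun t : Sym F => t.1.1) h
  exact fix_of_prime hn hF hbij g hg 1 (by norm_num) fun m hm =>
    (facts_eight h8 hF hbij (A := fst F (g ^ m)) (B := (g ^ m : Sym F).1.2) (g ^ m).2 hm
      (fst_pow rfl) (fst_ne hbij (ne_one_of_prime hm rfl))).2

theorem twelve (h12 : n = 12) (hF : IsAPN F) (hbij : Function.Bijective F) {p : ℕ}
    (hp : p.Prime) (hd : p ∣ Nat.card (Sym F)) : p ∈ ({5, 7, 13, 23, 73, 89} : Finset ℕ) := by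
  have : Finite (Aff n × Aff n) := inferInstance
  have : Finite (Sym F) := inferInstance
  have : Fact p.Prime := ⟨hp⟩
  obtain ⟨g, hg⟩ := exists_prime_orderOf_dvd_card' p hd
  have h1 := facts_twelve h12 hF hbij (A := fst F g) (B := g.1.2) g.2 hp
      (fst_pow hg) (fst_ne hbij (ne_one_of_prime hp hg))
  simp only [mem_insert, mem_singleton]
  exact h1

theorem mersenne (hn : Even n) (hF : IsAPN F) (hbij : Function.Bijective F)
    (hp : (2 ^ (n - 1) - 1).Prime) : ¬ (2 ^ (n - 1) - 1) ∣ Nat.card (Sym F) := by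
  intro hd
  have : Finite (Aff n × Aff n) := inferInstance
  have : Finite (Sym F) := inferInstance
  have : Fact (2 ^ (n - 1) - 1).Prime := ⟨hp⟩
  obtain ⟨g, hg⟩ := exists_prime_orderOf_dvd_card' (2 ^ (n - 1) - 1) hd
  obtain ⟨f, hfix, hp2, hdvd, hlt, hf2, hf4, hcount, hthree, hsing⟩ :=
    prime_facts (A := fst F g) (B := g.1.2) hn hF hbij g.2 hp (fst_pow hg)
      (fst_ne hbij (ne_one_of_prime hp hg))
  have hpos : 1 ≤ 2 ^ (n - 1) := Nat.one_le_two_pow
  have h1 : 2 ^ (n - 1) - 1 ≤ 2 ^ (n - f) - 1 := by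
    refine Nat.le_of_dvd ?_ hdvd
    have h2 : 2 ^ 1 ≤ 2 ^ (n - f) := Nat.pow_le_pow_right (by norm_num) (by omega)
    omega
  have hp1 := hp.two_le
  have h2 : 2 ^ (n - 1) ≤ 2 ^ (n - f) := by
    have : 1 ≤ 2 ^ (n - f) := Nat.one_le_two_pow
    omega
  have h3 := (Nat.pow_le_pow_iff_right (le_refl 2)).1 h2
  have hf : f = 0 ∨ f = 1 := by omega
  rcases hf with rfl | rfl
  · have e : 2 ^ (n - 0) - 1 = 2 * (2 ^ (n - 1) - 1) + 1 := by
      have h4 : 2 ^ (n - 0) = 2 * 2 ^ (n - 1) := by
        rw [← pow_succ']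
        congr 1
        omega
      rw [h4]
      omega
    rw [e] at hdvd
    have h5 : (2 ^ (n - 1) - 1) ∣ 1 := (Nat.dvd_add_right (dvd_mul_left _ _)).1 hdvd
    have h6 := Nat.le_of_dvd one_pos h5
    omega
  · exact hsing rfl (by omega)

end Pool.Agent.H28.APN3
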