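import Pool.Agent.H28.APN3.NoFour

/-! # Fixed points of affine symmetries of APN permutations -/

set_option autoImplicit false

namespace Pool.Agent.H28.APN3

open Pool.Agent.H42.APN Finset Module

variable {n : ℕ} {F : Vec n → Vec n}

theorem ne_zero_of_ne {x y : Vec n} (h : x ≠ y) : x + y ≠ 0 := fun h0 => h (eq_of_add_eq_zero h0)

theorem add_cancel_mid (x y : Vec n) : x + (x + y) = y := by
  rw [← add_assoc, add_self, zero_add]

/-- three different points and their sum never have values with sum zero -/
theorem flat_ne (hF : IsAPN F) {x y z : Vec n} (hxy : x ≠ y) (hxz : x ≠ z) (hyz : y ≠ z) :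
    F x + F y + F z + F (x + y + z) ≠ 0 := by
  intro h
  have h1 := hF (x + y) (F x + F y) (ne_zero_of_ne hxy)
  have h2 : ({x, y, z} : Finset (Vec n)) ⊆ univ.filter
      (fun w : Vec n => F (w + (x + y)) - F w = F x + F y) := by
    intro w hw
    rw [mem_filter]
    refine ⟨mem_univ _, ?_⟩
    rw [sub_eq]
    simp only [mem_insert, mem_singleton] at hw
    rcases hw with rfl | rfl | rfl
    · rw [add_cancel_mid, add_comm]
    · rw [add_comm x w, add_cancel_mid]
    · have e : w + (x + y) = x + y + w := by abel
      rw [e]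
      have h3 : F x + F y + (F w + F (x + y + w)) = 0 := by rw [← add_assoc]; exact h
      rw [add_comm (F (x + y + w))]
      exact (eq_of_add_eq_zero h3).symm
  have h3 := card_le_card h2
  have h4 : ({x, y, z} : Finset (Vec n)).card = 3 := by
    rw [card_eq_three]
    exact ⟨x, y, z, hxy, hxz, hyz, rfl⟩
  omega

theorem aff_three (A : Aff n) (x y z : Vec n) : A (x + y + z) = A x + A y + A z := by
  rw [aff_apply A (x + y + z), aff_apply A x, aff_apply A y, aff_apply A z, map_add, map_add]
  have h : A 0 + A 0 = 0 := add_self _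
  calc A.linear x + A.linear y + A.linear z + A 0
      = A.linear x + A.linear y + A.linear z + A 0 + 0 := by rw [add_zero]
    _ = A.linear x + A.linear y + A.linear z + A 0 + (A 0 + A 0) := by rw [h]
    _ = A.linear x + A 0 + (A.linear y + A 0) + (A.linear z + A 0) := by abel

variable {A B : Aff n}

theorem fix_image (hc : ∀ x, F (A x) = B (F x)) {x : Vec n} (hx : A x = x) : B (F x) = F x := by
  rw [← hc, hx]

theorem fix_preimage (hbij : Function.Bijective F) (hc : ∀ x, F (A x) = B (F x)) {y : Vec n}
    (hy : B y = y) : ∃ x, A x = x ∧ F x = y := by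
  obtain ⟨x, rfl⟩ := hbij.2 y
  refine ⟨x, ?_, rfl⟩
  apply hbij.1
  rw [hc, hy]

/-- exactly four fixed points are impossible -/
theorem card_fix_ne_four (hF : IsAPN F) (hbij : Function.Bijective F)
    (hc : ∀ x, F (A x) = B (F x))
    (h : (univ.filter (fun x : Vec n => A x = x)).card = 4) : False := by
  obtain ⟨x, y, z, w, hxy, hxz, hxw, hyz, hyw, hzw, hs⟩ := card_eq_four.1 h
  have hmem : ∀ u, A u = u ↔ u = x ∨ u = y ∨ u = z ∨ u = w := by
    intro u
    have h1 : u ∈ univ.filter (fun x : Vec n => A x = x) ↔ u ∈ ({x, y, z, w} : Finset (Vec n)) := by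
      rw [hs]
    simpa using h1
  have hx := (hmem x).2 (by simp)
  have hy := (hmem y).2 (by simp)
  have hz := (hmem z).2 (by simp)
  have hsum : A (x + y + z) = x + y + z := by rw [aff_three, hx, hy, hz]
  have hw : x + y + z = w := by
    rcases (hmem _).1 hsum with h1 | h1 | h1 | h1
    · exfalso
      apply ne_zero_of_ne hyz
      have h2 : x + (y + z) = x + 0 := by rw [← add_assoc, h1, add_zero]
      exact add_left_cancel h2
    · exfalso
      apply ne_zero_of_ne hxz
      have h2 : y + (x + z) = y + 0 := by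
        rw [add_zero]
        calc y + (x + z) = x + y + z := by abel
          _ = y := h1
      exact add_left_cancel h2
    · exfalso
      apply ne_zero_of_ne hxy
      have h2 : z + (x + y) = z + 0 := by
        rw [add_zero]
        calc z + (x + y) = x + y + z := by abel
          _ = z := h1
      exact add_left_cancel h2
    · exact h1
  have hB : B (F x + F y + F z) = F x + F y + F z := by
    rw [aff_three, fix_image hc hx, fix_image hc hy, fix_image hc hz]
  obtain ⟨u, hu, hFu⟩ := fix_preimage hbij hc hB
  have hne : F x ≠ F y ∧ F x ≠ F z ∧ F y ≠ F z :=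
    ⟨fun h => hxy (hbij.1 h), fun h => hxz (hbij.1 h), fun h => hyz (hbij.1 h)⟩
  rcases (hmem _).1 hu with rfl | rfl | rfl | rfl
  · apply ne_zero_of_ne hne.2.2
    have h2 : F u + (F y + F z) = F u + 0 := by rw [← add_assoc, ← hFu, add_zero]
    exact add_left_cancel h2
  · apply ne_zero_of_ne hne.2.1
    have h2 : F u + (F x + F z) = F u + 0 := by
      rw [add_zero]
      calc F u + (F x + F z) = F x + F u + F z := by abel
        _ = F u := hFu.symm
    exact add_left_cancel h2
  · apply ne_zero_of_ne hne.1
    have h2 : F u + (F x + F y) = F u + 0 := by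
      rw [add_zero]
      calc F u + (F x + F y) = F x + F y + F u := by abel
        _ = F u := hFu.symm
    exact add_left_cancel h2
  · refine flat_ne hF hxy hxz hyz ?_
    rw [hw, ← hFu, add_self]

/-- exactly sixteen fixed points are impossible -/
theorem finrank_ne_four (hF : IsAPN F) (hbij : Function.Bijective F)
    (hc : ∀ x, F (A x) = B (F x)) {p : Vec n} (hp : A p = p)
    (h : finrank (ZMod 2) (LinearMap.ker (dN A)) = 4) : False := by
  have hk := finrank_ker_eq hbij (lin_aff A) (lin_aff B) hc hp
  rw [h] at hk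
  have hV : finrank (ZMod 2) V4 = 4 := by simp
  let e : V4 ≃ₗ[ZMod 2] LinearMap.ker (dN A) := LinearEquiv.ofFinrankEq _ _ (by rw [hV, h])
  let e' : V4 ≃ₗ[ZMod 2] LinearMap.ker (dN B) := LinearEquiv.ofFinrankEq _ _ (by rw [hV, ← hk])
  have hq : dN B (F p) = B 0 := ((lin_aff B).fix_iff _).1 (fix_image hc hp)
  have hq0 : dN A p = A 0 := ((lin_aff A).fix_iff _).1 hp
  have hm : ∀ v : V4, F (p + e v) + F p ∈ LinearMap.ker (dN B) := by
    intro v
    have h1 : A (p + e v) = p + e v := by
      refine ((lin_aff A).fix_iff _).2 ?_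
      rw [map_add, hq0, LinearMap.mem_ker.1 (e v).2, add_zero]
    have h2 : dN B (F (p + e v)) = B 0 := ((lin_aff B).fix_iff _).1 (fix_image hc h1)
    rw [LinearMap.mem_ker, map_add, h2, hq, add_self]
  let G : V4 → V4 := fun v => e'.symm ⟨F (p + e v) + F p, hm v⟩
  have hGe : ∀ v, ((e' (G v) : LinearMap.ker (dN B)) : Vec n) = F (p + e v) + F p := by
    intro v
    show ((e' (e'.symm ⟨F (p + e v) + F p, hm v⟩) : LinearMap.ker (dN B)) : Vec n) = _
    rw [LinearEquiv.apply_symm_apply]
  have hinj : Function.Injective (fun v : V4 => p + (e v : Vec n)) := by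
    intro v w hvw
    have h1 : (e v : Vec n) = e w := add_left_cancel hvw
    exact e.injective (Subtype.ext h1)
  refine no_four (G := G) ?_ ?_
  · intro a b ha
    have ha' : (e a : Vec n) ≠ 0 := by
      intro h0
      apply ha
      have h1 : e a = 0 := Subtype.ext h0
      exact (LinearEquiv.map_eq_zero_iff e).1 h1
    refine le_trans ?_ (hF (e a) (e' b) ha')
    refine card_le_card_of_injOn (fun v => p + (e v : Vec n)) ?_ hinj.injOn
    intro v hv
    rw [mem_coe, mem_filter] at hv
    rw [mem_coe, mem_filter]
    refine ⟨mem_univ _, ?_⟩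
    have h1 := congrArg (fun t => ((e' t : LinearMap.ker (dN B)) : Vec n)) hv.2
    simp only [map_sub, Submodule.coe_sub] at h1
    rw [hGe, hGe, map_add, Submodule.coe_add] at h1
    rw [← h1]
    rw [add_sub_add_right_eq_sub, add_assoc]
  · rw [← Finite.injective_iff_bijective]
    intro v w hvw
    have h1 : e' (G v) = e' (G w) := by rw [hvw]
    have h2 := congrArg Subtype.val h1
    rw [hGe, hGe] at h2
    exact hinj (hbij.1 (add_right_cancel h2))

/-- an element of order three with a single fixed point is impossible -/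
theorem three_single (hF : IsAPN F) (hbij : Function.Bijective F)
    (hc : ∀ x, F (A x) = B (F x)) (h3 : ∀ x, A (A (A x)) = x) {p x : Vec n}
    (hu : ∀ y, A y = y → y = p) (hp : A p = p) (hx : A x ≠ x) : False := by
  have hB3 : ∀ y, B (B (B y)) = y := by
    intro y
    obtain ⟨x, rfl⟩ := hbij.2 y
    rw [← hc, ← hc, ← hc, h3]
  have h1 : A (x + A x + A (A x)) = x + A x + A (A x) := by
    rw [aff_three, h3]
    abel
  have h2 := hu _ h1
  have h4 : B (F x + F (A x) + F (A (A x))) = F x + F (A x) + F (A (A x)) := by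
    rw [aff_three, ← hc, ← hc, ← hc, h3]
    abel
  obtain ⟨u, hu1, hu2⟩ := fix_preimage hbij hc h4
  have h5 := hu _ hu1
  have hxy : x ≠ A x := fun h => hx h.symm
  have hyz : A x ≠ A (A x) := fun h => hxy (A.injective h)
  have hxz : x ≠ A (A x) := by
    intro h
    apply hx
    have h6 : A x = A (A (A x)) := congrArg (fun t => A t) h
    rw [h3] at h6
    exact h6
  refine flat_ne hF hxy hxz hyz ?_
  rw [h2, ← hu2, h5, add_self]

/-- symmetries of order three have at least 64 fixed points -/
theorem no_three (hn : Even n) (hF : IsAPN F) (hbij : Function.Bijective F)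
    (hc : ∀ x, F (A x) = B (F x)) (h3 : A * (A * A) = 1) (hne : A ≠ 1) :
    64 ≤ (univ.filter (fun x : Vec n => A x = x)).card := by
  have h3' : ∀ x, A (A (A x)) = x := by
    intro x
    have := congrArg (fun E : Aff n => E x) h3
    simpa using this
  have hx₀ : ∃ x₀, A x₀ ≠ x₀ := by
    by_contra h
    push Not at h
    apply hne
    ext1 x
    exact h x
  obtain ⟨x₀, hx₀⟩ := hx₀
  have : Fact (Nat.Prime 3) := ⟨Nat.prime_three⟩
  have hmod : Fintype.card (Vec n) ≡
      Fintype.card (Function.fixedPoints (fun x : Vec n => A x)) [MOD 3] :=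
    Equiv.Perm.card_fixedPoints_modEq (α := Vec n)
      (f := ((fun x : Vec n => A x) : Function.End (Vec n))) (p := 3) (n := 1) (by
        funext x
        exact h3' x)
  have hfc : Fintype.card (Function.fixedPoints (fun x : Vec n => A x)) =
      (univ.filter (fun x : Vec n => A x = x)).card := by
    rw [← Fintype.card_subtype]
    rfl
  rw [hfc] at hmod
  have hV : Fintype.card (Vec n) = 2 ^ n := by
    rw [Fintype.card_fun, ZMod.card, Fintype.card_fin]
  rw [hV] at hmod
  obtain ⟨m, rfl⟩ := hn
  have h4 : 2 ^ (m + m) % 3 = 1 := by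
    rw [← two_mul, pow_mul, Nat.pow_mod]
    norm_num
  have hmod' : 2 ^ (m + m) % 3 = (univ.filter (fun x : Vec (m + m) => A x = x)).card % 3 := hmod
  rw [h4] at hmod'
  have hp : ∃ p, A p = p := by
    by_contra h
    push Not at h
    have h5 : (univ.filter (fun x : Vec (m + m) => A x = x)) = ∅ := by
      rw [filter_eq_empty_iff]
      intro x _
      exact h x
    rw [h5] at hmod'
    simp at hmod'
  obtain ⟨p, hp⟩ := hp
  have h6 := (lin_aff A).card_fix hp
  have h6' : (univ.filter (fun x : Vec (m + m) => A x = x)).card =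
      2 ^ finrank (ZMod 2) (LinearMap.ker (dN A)) := by
    rw [← h6]
  set f := finrank (ZMod 2) (LinearMap.ker (dN A)) with hf
  by_contra hlt
  rw [not_le] at hlt
  have hf6 : f < 6 := by
    by_contra h
    have : 2 ^ 6 ≤ 2 ^ f := Nat.pow_le_pow_right (by norm_num) (by omega)
    omega
  interval_cases hfv : f
  · -- one fixed point
    rw [h6'] at hmod'
    have h7 : ∀ y, A y = y → y = p := by
      intro y hy
      have h8 : (univ.filter (fun x : Vec (m + m) => A x = x)).card ≤ 1 := by rw [h6']; norm_num
      rw [card_le_one] at h8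
      exact h8 y (by rw [mem_filter]; exact ⟨mem_univ _, hy⟩) p
        (by rw [mem_filter]; exact ⟨mem_univ _, hp⟩)
    exact three_single hF hbij hc h3' h7 hp hx₀
  · rw [h6'] at hmod'
    norm_num at hmod'
  · exact card_fix_ne_four hF hbij hc (by rw [h6']; norm_num)
  · rw [h6'] at hmod'
    norm_num at hmod'
  · exact finrank_ne_four hF hbij hc hp hf.symm
  · rw [h6'] at hmod'
    norm_num at hmod'

end Pool.Agent.H28.APN3
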