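import Pool.Agent.H42.APN.Pack

/-!
# No APN permutation of `F_2^4`

A combinatorial proof. For a subset `S` of `F_2^4` with eight elements let `r(a)` be the number of
`x ∈ S` with `x + a ∈ S`. The number `Q` of triples of elements of `S` whose sum is in `S` is the sum
of the squares of the `r(a)`; it is `≡ 8` modulo `24` and larger than `272`, hence at least `296`.
For an APN permutation the average over the fifteen components would be `288`.
-/

set_option autoImplicit false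

namespace Pool.Agent.H28.APN3

open Pool.Agent.H42.APN Finset

abbrev V4 : Type := Vec 4

/-- number of `x ∈ S` with `x + a ∈ S` -/
def r (S : Finset V4) (a : V4) : ℕ := (univ.filter (fun x : V4 => x ∈ S ∧ x + a ∈ S)).card

def Tr (S : Finset V4) : Type :=
  {t : V4 × V4 × V4 // t.1 ∈ S ∧ t.2.1 ∈ S ∧ t.2.2 ∈ S ∧ t.1 + t.2.1 + t.2.2 ∈ S}

instance (S : Finset V4) : DecidableEq (Tr S) := by unfold Tr; infer_instance
instance (S : Finset V4) : Fintype (Tr S) := by unfold Tr; infer_instance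

def rot (S : Finset V4) : Tr S → Tr S := fun t =>
  ⟨(t.1.2.1, t.1.2.2, t.1.1), t.2.2.1, t.2.2.2.1, t.2.1, by
    have h := t.2.2.2.2
    have e : t.1.2.1 + t.1.2.2 + t.1.1 = t.1.1 + t.1.2.1 + t.1.2.2 := by abel
    rw [e]; exact h⟩

theorem card_Tr_mod (S : Finset V4) : Fintype.card (Tr S) % 3 = S.card % 3 := by
  have : Fact (Nat.Prime 3) := ⟨Nat.prime_three⟩
  have h := Equiv.Perm.card_fixedPoints_modEq (α := Tr S) (f := (rot S : Function.End (Tr S)))
    (p := 3) (n := 1) (by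
      funext t
      rfl)
  have h2 : Fintype.card (Function.fixedPoints (rot S)) = S.card := by
    rw [← Fintype.card_coe S]
    refine Fintype.card_congr ⟨fun t => ⟨t.1.1.1, t.1.2.1⟩, fun x =>
      ⟨⟨(x.1, x.1, x.1), x.2, x.2, x.2, by rw [add_self, zero_add]; exact x.2⟩, rfl⟩, ?_, ?_⟩
    · rintro ⟨⟨⟨x, y, z⟩, h1, h2, h3, h4⟩, h5⟩
      have h6 : (y, z, x) = (x, y, z) := congrArg Subtype.val h5
      simp only [Prod.mk.injEq] at h6
      obtain ⟨rfl, rfl, -⟩ := h6
      rfl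
    · intro x
      rfl
  have h3 : Fintype.card (Tr S) % 3 = Fintype.card (Function.fixedPoints (rot S)) % 3 := h
  rw [h3, h2]

theorem sum_r (S : Finset V4) : ∑ a : V4, r S a = S.card ^ 2 := by
  have h1 : ∀ a, r S a = ∑ x : V4, if x ∈ S ∧ x + a ∈ S then 1 else 0 := by
    intro a
    unfold r
    rw [card_filter]
  simp_rw [h1]
  rw [sum_comm]
  have h2 : ∀ x : V4, (∑ a : V4, if x ∈ S ∧ x + a ∈ S then 1 else 0) =
      if x ∈ S then S.card else 0 := by
    intro x
    have h3 : (∑ a : V4, if x ∈ S ∧ x + a ∈ S then 1 else 0) =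
        ∑ a : V4, if x ∈ S ∧ a ∈ S then 1 else 0 :=
      Equiv.sum_comp (Equiv.addLeft x) (fun a => if x ∈ S ∧ a ∈ S then 1 else 0)
    rw [h3]
    by_cases hx : x ∈ S
    · simp [hx]
    · simp [hx]
  simp_rw [h2]
  simp [sq]

theorem sum_r_sq (S : Finset V4) : ∑ a : V4, r S a ^ 2 = Fintype.card (Tr S) := by
  have h1 : ∀ a, r S a = ∑ x : V4, if x ∈ S ∧ x + a ∈ S then 1 else 0 := by
    intro a
    unfold r
    rw [card_filter]
  have h2 : ∀ a, r S a ^ 2 = ∑ x : V4, ∑ y : V4,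
      if (x ∈ S ∧ x + a ∈ S) ∧ (y ∈ S ∧ y + a ∈ S) then 1 else 0 := by
    intro a
    rw [sq, h1 a, sum_mul_sum]
    refine sum_congr rfl fun x _ => sum_congr rfl fun y _ => ?_
    by_cases ha : x ∈ S ∧ x + a ∈ S <;> by_cases hb : y ∈ S ∧ y + a ∈ S <;> simp [ha, hb]
  simp_rw [h2]
  rw [sum_comm]
  have h3 : ∀ x : V4, (∑ a : V4, ∑ y : V4,
      if (x ∈ S ∧ x + a ∈ S) ∧ (y ∈ S ∧ y + a ∈ S) then 1 else 0) =
      ∑ z : V4, ∑ y : V4, if x ∈ S ∧ z ∈ S ∧ y ∈ S ∧ x + z + y ∈ S then 1 else 0 := by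
    intro x
    rw [← Equiv.sum_comp (Equiv.addLeft x)
      (fun z => ∑ y : V4, if x ∈ S ∧ z ∈ S ∧ y ∈ S ∧ x + z + y ∈ S then 1 else 0)]
    refine sum_congr rfl fun a _ => sum_congr rfl fun y _ => ?_
    have e : x + (Equiv.addLeft x) a + y = y + a := by
      show x + (x + a) + y = y + a
      rw [← add_assoc, add_self, zero_add, add_comm]
    rw [e]
    have e2 : (Equiv.addLeft x) a = x + a := rfl
    rw [e2]
    refine if_congr ?_ rfl rfl
    tauto
  simp_rw [h3]
  have h4 : Fintype.card (Tr S) = (univ.filter (fun t : V4 × V4 × V4 =>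
      t.1 ∈ S ∧ t.2.1 ∈ S ∧ t.2.2 ∈ S ∧ t.1 + t.2.1 + t.2.2 ∈ S)).card := by
    unfold Tr
    exact Fintype.card_subtype _
  rw [h4, card_filter]
  rw [Fintype.sum_prod_type]
  refine sum_congr rfl fun x _ => ?_
  rw [Fintype.sum_prod_type]

theorem r_even (S : Finset V4) {a : V4} (ha : a ≠ 0) : Even (r S a) := by
  unfold r
  have h := Finset.sum_involution (s := univ.filter (fun x : V4 => x ∈ S ∧ x + a ∈ S))
    (f := fun _ => (1 : ZMod 2)) (fun x _ => x + a)
    (fun x _ => by decide)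
    (fun x _ _ h => by
      apply ha
      have h2 : x + a = x + 0 := by rw [add_zero]; exact h
      exact add_left_cancel h2)
    (fun x hx => by
      rw [mem_filter] at hx ⊢
      refine ⟨mem_univ _, hx.2.2, ?_⟩
      rw [add_assoc, add_self, add_zero]
      exact hx.2.1)
    (fun x _ => by rw [add_assoc, add_self, add_zero])
  rw [sum_const, nsmul_eq_mul, mul_one] at h
  exact (ZMod.natCast_eq_zero_iff_even).1 h

theorem r_zero (S : Finset V4) : r S 0 = S.card := by
  unfold r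
  simp

/-- the key bound -/
theorem key (S : Finset V4) (hS : S.card = 8) : 296 ≤ ∑ a : V4, r S a ^ 2 := by
  have h1 := sum_r S
  have h2 : ∑ a : V4, r S a ^ 2 = r S 0 ^ 2 + ∑ a ∈ univ.erase (0 : V4), r S a ^ 2 :=
    (add_sum_erase univ _ (mem_univ _)).symm
  have h3 : ∑ a : V4, r S a = r S 0 + ∑ a ∈ univ.erase (0 : V4), r S a :=
    (add_sum_erase univ _ (mem_univ _)).symm
  have h4 := card_Tr_mod S
  have h5 := sum_r_sq S
  rw [r_zero, hS] at h2 h3
  rw [hS] at h1 h4
  have h6 : ∑ a ∈ univ.erase (0 : V4), r S a = 56 := by omega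
  -- Cauchy-Schwarz
  have h7 : (∑ a ∈ univ.erase (0 : V4), r S a) ^ 2 ≤
      15 * ∑ a ∈ univ.erase (0 : V4), r S a ^ 2 := by
    have := sq_sum_le_card_mul_sum_sq (s := univ.erase (0 : V4)) (f := fun a => r S a)
    have hc : (univ.erase (0 : V4)).card = 15 := by
      rw [card_erase_of_mem (mem_univ _), card_univ, Fintype.card_fun, ZMod.card, Fintype.card_fin]
      norm_num
    rw [hc] at this
    exact_mod_cast this
  -- parity
  choose! c hc using fun (a : V4) (ha : a ∈ univ.erase (0 : V4)) =>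
    r_even S (a := a) (ne_of_mem_erase ha)
  have h8 : ∑ a ∈ univ.erase (0 : V4), r S a = 2 * ∑ a ∈ univ.erase (0 : V4), c a := by
    rw [mul_sum]
    exact sum_congr rfl fun a ha => by rw [hc a ha]; ring
  have h9 : ∑ a ∈ univ.erase (0 : V4), r S a ^ 2 = 4 * ∑ a ∈ univ.erase (0 : V4), c a ^ 2 := by
    rw [mul_sum]
    exact sum_congr rfl fun a ha => by rw [hc a ha]; ring
  have h10 : (∑ a ∈ univ.erase (0 : V4), c a ^ 2) % 2 = (∑ a ∈ univ.erase (0 : V4), c a) % 2 := by
    rw [sum_nat_mod, sum_nat_mod (univ.erase (0 : V4)) 2 c]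
    refine congrArg (fun t => t % 2) (sum_congr rfl fun a _ => ?_)
    rcases Nat.mod_two_eq_zero_or_one (c a) with h | h <;> simp [Nat.pow_mod, h]
  rw [h6] at h7 h8
  omega

end Pool.Agent.H28.APN3
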