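import Pool.Agent.H28.APN3.Prime

/-! # The group of affine symmetries in dimension eight -/

set_option autoImplicit false

namespace Pool.Agent.H28.APN3

open Pool.Agent.H42.APN Finset Module

variable {n : ℕ} {F : Vec n → Vec n}

/-- Burnside's lemma when all elements other than the identity have `c` fixed points -/
theorem burnside {H : Type} [Group H] [Fintype H] (ρ : H →* Aff n) (c : ℕ)
    (hc : ∀ g : H, g ≠ 1 → (univ.filter (fun x : Vec n => ρ g x = x)).card = c) :
    ∃ k, 2 ^ n + (Fintype.card H - 1) * c = k * Fintype.card H := by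
  classical
  let _ : MulAction H (Vec n) :=
    { smul := fun g x => ρ g x
      one_smul := fun x => by
        show ρ 1 x = x
        rw [map_one]
        rfl
      mul_smul := fun g h x => by
        show ρ (g * h) x = ρ g (ρ h x)
        rw [map_mul]
        rfl }
  have h := MulAction.sum_card_fixedBy_eq_card_orbits_mul_card_group H (Vec n)
  have hfix : ∀ g : H, Fintype.card (MulAction.fixedBy (Vec n) g) =
      (univ.filter (fun x : Vec n => ρ g x = x)).card := by
    intro g
    rw [← Fintype.card_subtype]
    exact Fintype.card_congr (Equiv.refl _)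
  simp_rw [hfix] at h
  rw [← add_sum_erase univ _ (mem_univ (1 : H))] at h
  have h1 : (univ.filter (fun x : Vec n => ρ 1 x = x)).card = 2 ^ n := by
    have h2 : (univ.filter (fun x : Vec n => ρ 1 x = x)) = univ := by
      rw [filter_eq_self]
      intro x _
      rw [map_one]
      rfl
    rw [h2, card_univ, Fintype.card_fun, ZMod.card, Fintype.card_fin]
  have h3 : ∑ g ∈ univ.erase (1 : H), (univ.filter (fun x : Vec n => ρ g x = x)).card =
      (Fintype.card H - 1) * c := by
    rw [sum_congr rfl (fun g hg => hc g (ne_of_mem_erase hg)), sum_const, smul_eq_mul,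
      card_erase_of_mem (mem_univ _), card_univ]
  rw [h1, h3] at h
  exact ⟨_, h⟩

/-- an odd-order map and a power with at most two fixed points have the same fixed points -/
theorem fix_eq_of_pow (A : Aff n) {N : ℕ} (hN : Odd N) (hA : A ^ N = 1) (m : ℕ)
    (h2 : (univ.filter (fun x : Vec n => (A ^ m) x = x)).card ≤ 2) :
    (univ.filter (fun x : Vec n => A x = x)) = univ.filter (fun x : Vec n => (A ^ m) x = x) := by
  ext x
  rw [mem_filter, mem_filter]
  refine and_congr_right fun _ => ⟨fun h => fix_pow h m, fun h => ?_⟩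
  have hcomm : ∀ y, (A ^ m) (A y) = A ((A ^ m) y) := by
    intro y
    rw [← pow_apply_succ]
    show (A ^ m * A) y = (A ^ (m + 1)) y
    rw [← pow_succ]
  have h3 : (A ^ m) (A x) = A x := by rw [hcomm, h]
  have h4 : (A ^ m) (A (A x)) = A (A x) := by rw [hcomm, h3]
  by_contra hne
  obtain ⟨k, hk⟩ := hN
  have h5 : A (A x) ≠ x := by
    intro h6
    apply hne
    have h7 : ∀ k : ℕ, (A ^ (2 * k)) x = x := by
      intro k
      induction k with
      | zero => rfl
      | succ k ih =>
        have e : 2 * (k + 1) = 2 * k + 1 + 1 := by ring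
        rw [e, pow_apply_succ, pow_apply_succ, ih, h6]
    have h8 : (A ^ N) x = A x := by rw [hk, pow_apply_succ, h7]
    rw [hA] at h8
    exact h8.symm
  have h6 : A x ≠ A (A x) := fun h7 => hne (A.injective h7).symm
  have h7 : ({x, A x, A (A x)} : Finset (Vec n)) ⊆ univ.filter (fun x : Vec n => (A ^ m) x = x) := by
    intro y hy
    rw [mem_filter]
    refine ⟨mem_univ _, ?_⟩
    simp only [mem_insert, mem_singleton] at hy
    rcases hy with rfl | rfl | rfl
    · exact h
    · exact h3
    · exact h4
  have h8 := card_le_card h7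
  have h9 : ({x, A x, A (A x)} : Finset (Vec n)).card = 3 := by
    rw [card_eq_three]
    exact ⟨x, A x, A (A x), fun h => hne h.symm, fun h => h5 h.symm, h6, rfl⟩
  omega

/-- the first component -/
def fst (F : Vec n → Vec n) : Sym F →* Aff n := (MonoidHom.fst _ _).comp (Sym F).subtype

theorem fst_ne (hbij : Function.Bijective F) {g : Sym F} (hg : g ≠ 1) : fst F g ≠ 1 := by
  intro h
  apply hg
  apply Subtype.ext
  apply Prod.ext
  · exact h
  · exact snd_eq_one hbij _ _ g.2 h

theorem fst_pow {g : Sym F} {p : ℕ} (hg : orderOf g = p) : (fst F g) ^ p = 1 := by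
  rw [← map_pow, ← hg, pow_orderOf_eq_one, map_one]

theorem ne_one_of_prime {g : Sym F} {p : ℕ} (hp : p.Prime) (hg : orderOf g = p) : g ≠ 1 := by
  rintro rfl
  rw [orderOf_one] at hg
  rw [← hg] at hp
  exact Nat.not_prime_one hp

/-- fixed points of an element from those of its powers of prime order -/
theorem fix_of_prime (hn : Even n) (hF : IsAPN F) (hbij : Function.Bijective F) (g : Sym F)
    (hg : g ≠ 1) (c : ℕ) (hc2 : c ≤ 2)
    (H : ∀ m : ℕ, (orderOf (g ^ m)).Prime →
      (univ.filter (fun x : Vec n => fst F (g ^ m) x = x)).card = c) :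
    (univ.filter (fun x : Vec n => fst F g x = x)).card = c := by
  have : Finite (Aff n × Aff n) := inferInstance
  have : Finite (Sym F) := inferInstance
  have hN : orderOf g ≠ 0 := (orderOf_pos g).ne'
  have hN1 : orderOf g ≠ 1 := fun h => hg (orderOf_eq_one_iff.1 h)
  have hp := Nat.minFac_prime hN1
  have hd := Nat.minFac_dvd (orderOf g)
  have ho := orderOf_pow_orderOf_div hN hd
  have h1 := H (orderOf g / (orderOf g).minFac) (by rw [ho]; exact hp)
  have hodd : Odd (orderOf g) := Odd.of_dvd_nat (odd_card hn hF hbij) (orderOf_dvd_natCard g)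
  rw [map_pow] at h1
  have h2 := fix_eq_of_pow (fst F g) hodd (fst_pow rfl) (orderOf g / (orderOf g).minFac)
    (by rw [h1]; exact hc2)
  rw [h2, h1]

/-- in dimension eight the group has order dividing 85 -/
theorem card_eight (h8 : n = 8) (hF : IsAPN F) (hbij : Function.Bijective F) :
    Nat.card (Sym F) ∣ 85 := by
  have hn : Even n := by rw [h8]; exact ⟨4, rfl⟩
  have : Finite (Aff n × Aff n) := inferInstance
  have : Finite (Sym F) := inferInstance
  let _ : Fintype (Sym F) := Fintype.ofFinite _
  have hfix : ∀ g : Sym F, g ≠ 1 → (univ.filter (fun x : Vec n => fst F g x = x)).card = 1 := by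
    intro g hg
    refine fix_of_prime hn hF hbij g hg 1 (by norm_num) fun m hm => ?_
    exact (facts_eight h8 hF hbij (A := fst F (g ^ m)) (B := (g ^ m : Sym F).1.2) (g ^ m).2 hm
      (fst_pow rfl) (fst_ne hbij (ne_one_of_prime hm rfl))).2
  obtain ⟨k, hk⟩ := burnside (fst F) 1 hfix
  have hpow : 2 ^ n = 256 := by rw [h8]; norm_num
  rw [mul_one, hpow] at hk
  rw [Nat.card_eq_fintype_card]
  have hpos : 0 < Fintype.card (Sym F) := Fintype.card_pos
  have h255 : Fintype.card (Sym F) ∣ 255 := by
    have h1 : 255 + Fintype.card (Sym F) = k * Fintype.card (Sym F) := by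
      rw [← hk]
      omega
    have h2 : Fintype.card (Sym F) ∣ 255 + Fintype.card (Sym F) := by
      rw [h1]
      exact dvd_mul_left _ _
    exact (Nat.dvd_add_left (dvd_refl _)).1 h2
  have h3 : ¬ 3 ∣ Fintype.card (Sym F) := by
    intro h3
    have : Fact (Nat.Prime 3) := ⟨Nat.prime_three⟩
    obtain ⟨g, hg⟩ := exists_prime_orderOf_dvd_card 3 h3
    have h4 := (facts_eight h8 hF hbij (A := fst F g) (B := g.1.2) g.2 Nat.prime_three
      (fst_pow hg) (fst_ne hbij (ne_one_of_prime Nat.prime_three hg))).1
    omega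
  have hco : Nat.Coprime (Fintype.card (Sym F)) 3 :=
    ((Nat.Prime.coprime_iff_not_dvd Nat.prime_three).2 h3).symm
  have e : 255 = 3 * 85 := by norm_num
  rw [e] at h255
  exact hco.dvd_of_dvd_mul_left h255

end Pool.Agent.H28.APN3
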