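import Pool.Agent.H28.APN3.Four

/-! # No APN permutation of `F_2^4`: the contradiction -/

set_option autoImplicit false

namespace Pool.Agent.H28.APN3

open Pool.Agent.H42.APN Finset

/-- the sign of an element of `F_2` -/
def chi (u : ZMod 2) : ℤ := if u = 0 then 1 else -1

theorem chi_add (u v : ZMod 2) : chi (u + v) = chi u * chi v := by
  revert u v
  decide

/-- dot product -/
def dot (b v : V4) : ZMod 2 := b 0 * v 0 + b 1 * v 1 + b 2 * v 2 + b 3 * v 3

theorem dot_add (b v w : V4) : dot b (v + w) = dot b v + dot b w := by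
  show b 0 * (v 0 + w 0) + b 1 * (v 1 + w 1) + b 2 * (v 2 + w 2) + b 3 * (v 3 + w 3) = _
  unfold dot
  ring

theorem sum_fn {M : Type} [AddCommMonoid M] (f : V4 → M) :
    ∑ b : V4, f b = ∑ i : ZMod 2, ∑ j : ZMod 2, ∑ k : ZMod 2, ∑ l : ZMod 2, f ![i, j, k, l] := by
  have e : (ZMod 2 × ZMod 2 × ZMod 2 × ZMod 2) ≃ V4 :=
    { toFun := fun t => ![t.1, t.2.1, t.2.2.1, t.2.2.2]
      invFun := fun v => (v 0, v 1, v 2, v 3)
      left_inv := fun t => rfl
      right_inv := fun v => by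
        funext i
        fin_cases i <;> rfl }
  have he : ∑ b : V4, f b = ∑ t : ZMod 2 × ZMod 2 × ZMod 2 × ZMod 2,
      f ![t.1, t.2.1, t.2.2.1, t.2.2.2] := by
    refine (Fintype.sum_equiv
      { toFun := fun t => ![t.1, t.2.1, t.2.2.1, t.2.2.2]
        invFun := fun v => (v 0, v 1, v 2, v 3)
        left_inv := fun t => rfl
        right_inv := fun v => by
          funext i
          fin_cases i <;> rfl } _ _ fun t => rfl).symm
  rw [he, Fintype.sum_prod_type]
  refine sum_congr rfl fun i _ => ?_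
  rw [Fintype.sum_prod_type]
  refine sum_congr rfl fun j _ => ?_
  rw [Fintype.sum_prod_type]

theorem sum_chi (v : V4) : ∑ b : V4, chi (dot b v) = if v = 0 then 16 else 0 := by
  rw [sum_fn]
  have h : ∀ p q r s : ZMod 2, ∑ i : ZMod 2, ∑ j : ZMod 2, ∑ k : ZMod 2, ∑ l : ZMod 2,
      chi (i * p + j * q + k * r + l * s) =
        if p = 0 ∧ q = 0 ∧ r = 0 ∧ s = 0 then 16 else 0 := by
    decide
  have h2 := h (v 0) (v 1) (v 2) (v 3)
  have h3 : (v = 0) ↔ (v 0 = 0 ∧ v 1 = 0 ∧ v 2 = 0 ∧ v 3 = 0) := by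
    constructor
    · rintro rfl
      exact ⟨rfl, rfl, rfl, rfl⟩
    · rintro ⟨h0, h1, h2, h3⟩
      funext i
      fin_cases i <;> assumption
  rw [if_congr h3 rfl rfl, ← h2]
  rfl

theorem dot_comm (b v : V4) : dot b v = dot v b := by
  unfold dot
  ring

variable {G : V4 → V4}

theorem sum_sign (hb : Function.Bijective G) {b : V4} (hb0 : b ≠ 0) :
    ∑ x : V4, chi (dot b (G x)) = 0 := by
  rw [hb.sum_comp (fun y => chi (dot b y))]
  simp_rw [dot_comm b]
  rw [sum_chi, if_neg hb0]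

/-- the autocorrelation -/
def R (G : V4 → V4) (b a : V4) : ℤ := ∑ x : V4, chi (dot b (G x)) * chi (dot b (G (x + a)))

/-- the zero set of the component `b` -/
def Sb (G : V4 → V4) (b : V4) : Finset V4 := univ.filter (fun x => dot b (G x) = 0)

theorem chi_eq (u : ZMod 2) : chi u = 2 * (if u = 0 then 1 else 0) - 1 := by
  unfold chi
  split_ifs <;> norm_num

theorem card_V4 : Fintype.card V4 = 16 := by
  rw [Fintype.card_fun, ZMod.card, Fintype.card_fin]
  norm_num

theorem card_Sb (hb : Function.Bijective G) {b : V4} (hb0 : b ≠ 0) : (Sb G b).card = 8 := by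
  have h := sum_sign hb hb0
  simp_rw [chi_eq] at h
  rw [sum_sub_distrib, ← mul_sum, sum_const, card_univ, card_V4] at h
  have h2 : ∑ x : V4, (if dot b (G x) = 0 then (1 : ℤ) else 0) = (Sb G b).card := by
    unfold Sb
    rw [card_filter]
    push_cast
    rfl
  rw [h2] at h
  simp only [nsmul_eq_mul, mul_one] at h
  push_cast at h
  omega

theorem R_eq (hb : Function.Bijective G) {b : V4} (hb0 : b ≠ 0) (a : V4) :
    R G b a = 4 * (r (Sb G b) a : ℤ) - 16 := by
  have h1 : ∀ x : V4, chi (dot b (G x)) * chi (dot b (G (x + a))) =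
      4 * (if x ∈ Sb G b ∧ x + a ∈ Sb G b then 1 else 0) - chi (dot b (G x))
        - chi (dot b (G (x + a))) - 1 := by
    intro x
    unfold chi
    have e1 : x ∈ Sb G b ↔ dot b (G x) = 0 := by simp [Sb]
    have e2 : x + a ∈ Sb G b ↔ dot b (G (x + a)) = 0 := by simp [Sb]
    simp only [e1, e2]
    by_cases h1 : dot b (G x) = 0 <;> by_cases h2 : dot b (G (x + a)) = 0 <;> simp [h1, h2]
  unfold R
  simp_rw [h1]
  rw [sum_sub_distrib, sum_sub_distrib, sum_sub_distrib, ← mul_sum, sum_sign hb hb0]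
  have h3 : ∑ x : V4, chi (dot b (G (x + a))) = 0 := by
    rw [← sum_sign hb hb0]
    exact Equiv.sum_comp (Equiv.addRight a) (fun x => chi (dot b (G x)))
  rw [h3, sum_const, card_univ, card_V4]
  have h4 : (r (Sb G b) a : ℤ) = ∑ x : V4, if x ∈ Sb G b ∧ x + a ∈ Sb G b then 1 else 0 := by
    unfold r
    rw [card_filter]
    push_cast
    rfl
  rw [h4]
  simp

theorem sum_R_sq (hG : IsAPN G) {a : V4} (ha : a ≠ 0) : ∑ b : V4, R G b a ^ 2 ≤ 512 := by
  have h1 : ∀ b, R G b a ^ 2 = ∑ x : V4, ∑ y : V4,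
      chi (dot b (G x + G (x + a) + (G y + G (y + a)))) := by
    intro b
    unfold R
    rw [sq, sum_mul_sum]
    refine sum_congr rfl fun x _ => sum_congr rfl fun y _ => ?_
    rw [dot_add, dot_add, dot_add, chi_add, chi_add, chi_add]
  simp_rw [h1]
  rw [sum_comm]
  have h2 : ∀ x : V4, ∑ b : V4, ∑ y : V4, chi (dot b (G x + G (x + a) + (G y + G (y + a)))) ≤ 32 := by
    intro x
    rw [sum_comm]
    simp_rw [sum_chi]
    rw [← sum_filter, sum_const]
    have h3 : (univ.filter (fun y : V4 => G x + G (x + a) + (G y + G (y + a)) = 0)).card ≤ 2 := by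
      refine le_trans (card_le_card ?_) (hG a (G x + G (x + a)) ha)
      intro y hy
      rw [mem_filter] at hy ⊢
      refine ⟨mem_univ _, ?_⟩
      rw [sub_eq, add_comm (G (y + a))]
      exact (eq_of_add_eq_zero hy.2).symm
    rw [nsmul_eq_mul]
    have h4 : ((univ.filter (fun y : V4 => G x + G (x + a) + (G y + G (y + a)) = 0)).card : ℤ) ≤ 2 := by
      exact_mod_cast h3
    linarith
  calc _ ≤ ∑ x : V4, (32 : ℤ) := sum_le_sum fun x _ => h2 x
    _ = 512 := by
      rw [sum_const, card_univ, card_V4]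
      norm_num

theorem R_zero (a : V4) : R G 0 a = 16 := by
  unfold R
  have h : ∀ v : V4, dot 0 v = 0 := by
    intro v
    unfold dot
    simp
  simp_rw [h]
  simp only [chi]
  simp [card_V4]

/-- there is no APN permutation of `F_2^4` -/
theorem no_four (hG : IsAPN G) (hb : Function.Bijective G) : False := by
  have hcard : (univ.erase (0 : V4)).card = 15 := by
    rw [card_erase_of_mem (mem_univ _), card_univ, card_V4]
  have h1 : ∀ a ∈ univ.erase (0 : V4), ∑ b ∈ univ.erase (0 : V4), R G b a ^ 2 ≤ 256 := by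
    intro a ha
    have h2 := sum_R_sq hG (ne_of_mem_erase ha)
    rw [← add_sum_erase univ _ (mem_univ (0 : V4)), R_zero] at h2
    linarith
  have h2 : ∑ a ∈ univ.erase (0 : V4), ∑ b ∈ univ.erase (0 : V4), R G b a ^ 2 ≤ 15 * 256 := by
    calc _ ≤ ∑ a ∈ univ.erase (0 : V4), (256 : ℤ) := sum_le_sum h1
      _ = 15 * 256 := by rw [sum_const, hcard]; norm_num
  rw [sum_comm] at h2
  have h3 : ∀ b ∈ univ.erase (0 : V4), 384 ≤ ∑ a ∈ univ.erase (0 : V4), R G b a ^ 2 := by
    intro b hb0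
    have hb0 := ne_of_mem_erase hb0
    have h4 := key (Sb G b) (card_Sb hb hb0)
    have h5 := sum_r (Sb G b)
    rw [← add_sum_erase univ _ (mem_univ (0 : V4)), r_zero, card_Sb hb hb0] at h4 h5
    simp_rw [R_eq hb hb0]
    have h6 : ∀ a : V4, (4 * (r (Sb G b) a : ℤ) - 16) ^ 2 =
        16 * (r (Sb G b) a : ℤ) ^ 2 - 128 * (r (Sb G b) a : ℤ) + 256 := by
      intro a
      ring
    simp_rw [h6]
    rw [sum_add_distrib, sum_sub_distrib, ← mul_sum, ← mul_sum, sum_const, hcard]
    have h7 : (232 : ℤ) ≤ ∑ a ∈ univ.erase (0 : V4), (r (Sb G b) a : ℤ) ^ 2 := by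
      have : 232 ≤ ∑ a ∈ univ.erase (0 : V4), r (Sb G b) a ^ 2 := by omega
      exact_mod_cast this
    have h8 : ∑ a ∈ univ.erase (0 : V4), (r (Sb G b) a : ℤ) = 56 := by
      have : ∑ a ∈ univ.erase (0 : V4), r (Sb G b) a = 56 := by omega
      exact_mod_cast this
    rw [h8]
    simp only [nsmul_eq_mul]
    push_cast
    linarith
  have h4 : (15 * 384 : ℤ) ≤ ∑ b ∈ univ.erase (0 : V4), ∑ a ∈ univ.erase (0 : V4), R G b a ^ 2 := by
    calc (15 * 384 : ℤ) = ∑ b ∈ univ.erase (0 : V4), (384 : ℤ) := by rw [sum_const, hcard]; norm_num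
      _ ≤ _ := sum_le_sum h3
  linarith

end Pool.Agent.H28.APN3
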