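import Pool.Agent.H28.APN3.Singer3

/-! # Affine symmetries of prime order -/

set_option autoImplicit false

namespace Pool.Agent.H28.APN3

open Pool.Agent.H42.APN Finset Module

variable {n : ℕ} {A B : Aff n} {q : Vec n} {p : ℕ} {F : Vec n → Vec n}

theorem prime_facts (hn : Even n) (hF : IsAPN F) (hbij : Function.Bijective F)
    (hc : ∀ x, F (A x) = B (F x)) (hp : p.Prime) (hA : A ^ p = 1) (hne : A ≠ 1) :
    ∃ f : ℕ, (univ.filter (fun x : Vec n => A x = x)).card = 2 ^ f ∧ p ≠ 2 ∧
      p ∣ 2 ^ (n - f) - 1 ∧ 2 * f < n ∧ f ≠ 2 ∧ f ≠ 4 ∧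
      (p - 1) * 2 ^ f ≤ 2 * (2 ^ (n - f) - 1) ∧ (p = 3 → 6 ≤ f) ∧
      (f = 1 → 2 ^ (n - 1) ≠ p + 1) := by
  have hB : B ^ p = 1 := B_pow hbij hc hA
  have hp2 : p ≠ 2 := by
    rintro rfl
    rw [sq] at hA hB
    exact no_two hn hF hbij A B hc hA hB hne
  obtain ⟨⟨q, hq⟩, hmod⟩ := exists_fixed hp hp2 hA
  have hfix := (lin_aff A).card_fix hq
  have hfix' : (univ.filter (fun x : Vec n => A x = x)).card =
      2 ^ finrank (ZMod 2) (LinearMap.ker (dN A)) := by
    rw [← hfix]
  have hx₀ : ∃ x₀, A x₀ ≠ x₀ := by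
    by_contra h
    push Not at h
    apply hne
    ext1 x
    exact h x
  obtain ⟨x₀, hx₀⟩ := hx₀
  have hcount := range_finrank_lt hF hbij hc hp hA hq hx₀
  have hfew := few_fixed hF hbij A B hc hne
  have hcard : Nat.card {x : Vec n // A x = x} = (univ.filter (fun x : Vec n => A x = x)).card := by
    rw [Nat.card_eq_fintype_card, Fintype.card_subtype]
  rw [hcard, hfix', ← pow_mul, mul_comm] at hfew
  have hlt := (Nat.pow_lt_pow_iff_right (le_refl 2)).1 hfew
  have hk := finrank_ker_eq hbij (lin_aff A) (lin_aff B) hc hq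
  set f := finrank (ZMod 2) (LinearMap.ker (dN A)) with hf
  have hthree : p = 3 → 6 ≤ f := by
    rintro rfl
    have h1 : A * (A * A) = 1 := by
      have e : A ^ 3 = A * (A * A) := by
        rw [pow_succ', sq]
      rw [← e, hA]
    have h2 := no_three hn hF hbij hc h1 hne
    rw [hfix'] at h2
    by_contra hlt
    have h3 : 2 ^ f < 2 ^ 6 := Nat.pow_lt_pow_right (by norm_num) (by omega)
    omega
  refine ⟨f, hfix', hp2, ?_, hlt, ?_, ?_, hcount, hthree, ?_⟩
  · -- divisibility
    have h1 : 2 ^ f * 2 ^ (n - f) = 2 ^ n := by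
      rw [← pow_add]
      congr 1
      omega
    have h2 : 2 ^ f * 1 ≡ 2 ^ f * 2 ^ (n - f) [MOD p] := by
      rw [mul_one, h1]
      exact hmod.symm
    have hco : Nat.gcd p (2 ^ f) = 1 := by
      apply Nat.Coprime.pow_right
      rw [Nat.coprime_primes hp Nat.prime_two]
      exact hp2
    have h3 := Nat.ModEq.cancel_left_of_coprime hco h2
    exact (Nat.modEq_iff_dvd' Nat.one_le_two_pow).1 h3
  · intro h2
    exact card_fix_ne_four hF hbij hc (by rw [hfix', h2]; norm_num)
  · intro h4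
    exact finrank_ne_four hF hbij hc hq (by rw [← hf, h4])
  · intro h1 hcard
    have hp3 : p ≠ 3 := by
      intro h3
      have := hthree h3
      omega
    have hp5 : 5 ≤ p := by
      have h2 := hp.two_le
      by_contra hlt
      have : p = 4 := by omega
      rw [this] at hp
      exact absurd hp (by norm_num)
    have hp2' : ¬ p ∣ 2 := Nat.not_dvd_of_pos_of_lt (by norm_num) (by omega)
    have hSA : Sing A q p := ⟨hp, hp2', hA, hq, by rw [← hf, h1], by omega, hcard⟩
    have hSB : Sing B (F q) p := ⟨hp, hp2', hB, fix_image hc hq, by rw [← hk, h1], by omega, hcard⟩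
    exact no_singer hF hbij hc hSA hSB (by omega)

theorem prime_dvd {p m : ℕ} (hp : p.Prime) {l : List ℕ} (hl : l.prod = m)
    (hl' : ∀ q ∈ l, q.Prime) (hd : p ∣ m) : p ∈ l := by
  rw [← hl] at hd
  obtain ⟨a, ha, hpa⟩ := (Prime.dvd_prod_iff hp.prime).1 hd
  rw [(Nat.prime_dvd_prime_iff_eq hp (hl' a ha)).1 hpa]
  exact ha

theorem facts_eight (h8 : n = 8) (hF : IsAPN F) (hbij : Function.Bijective F)
    (hc : ∀ x, F (A x) = B (F x)) (hp : p.Prime) (hA : A ^ p = 1) (hne : A ≠ 1) :
    (p = 5 ∨ p = 17) ∧ (univ.filter (fun x : Vec n => A x = x)).card = 1 := by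
  obtain ⟨f, hfix, hp2, hdvd, hlt, hf2, hf4, hcount, hthree, hsing⟩ :=
    prime_facts (by rw [h8]; exact ⟨4, rfl⟩) hF hbij hc hp hA hne
  rw [h8] at hdvd hlt hcount hsing
  have hf : f < 4 := by omega
  interval_cases f
  · have h1 := prime_dvd hp (l := [3, 5, 17]) (m := 2 ^ (8 - 0) - 1) (by norm_num)
      (by intro q hq; simp at hq; rcases hq with rfl | rfl | rfl <;> norm_num) hdvd
    simp at h1
    rcases h1 with h1 | h1 | h1
    · have := hthree h1
      omega
    · exact ⟨Or.inl h1, by rw [hfix]; norm_num⟩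
    · exact ⟨Or.inr h1, by rw [hfix]; norm_num⟩
  · have h1 := prime_dvd hp (l := [127]) (m := 2 ^ (8 - 1) - 1) (by norm_num)
      (by intro q hq; simp at hq; rw [hq]; norm_num) hdvd
    simp at h1
    exfalso
    exact hsing rfl (by rw [h1]; norm_num)
  · exact absurd rfl hf2
  · have h1 := prime_dvd hp (l := [31]) (m := 2 ^ (8 - 3) - 1) (by norm_num)
      (by intro q hq; simp at hq; rw [hq]; norm_num) hdvd
    simp at h1
    exfalso
    rw [h1] at hcount
    norm_num at hcount

theorem facts_ten (h10 : n = 10) (hF : IsAPN F) (hbij : Function.Bijective F)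
    (hc : ∀ x, F (A x) = B (F x)) (hp : p.Prime) (hA : A ^ p = 1) (hne : A ≠ 1) :
    p = 7 ∨ p = 11 ∨ p = 31 ∨ p = 73 := by
  obtain ⟨f, hfix, hp2, hdvd, hlt, hf2, hf4, hcount, hthree, hsing⟩ :=
    prime_facts (by rw [h10]; exact ⟨5, rfl⟩) hF hbij hc hp hA hne
  rw [h10] at hdvd hlt hcount hsing
  have hf : f < 5 := by omega
  interval_cases f
  · have h1 := prime_dvd hp (l := [3, 11, 31]) (m := 2 ^ (10 - 0) - 1) (by norm_num)
      (by intro q hq; simp at hq; rcases hq with rfl | rfl | rfl <;> norm_num) hdvd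
    simp at h1
    rcases h1 with h1 | h1 | h1
    · have := hthree h1
      omega
    · omega
    · omega
  · have h1 := prime_dvd hp (l := [7, 73]) (m := 2 ^ (10 - 1) - 1) (by norm_num)
      (by intro q hq; simp at hq; rcases hq with rfl | rfl <;> norm_num) hdvd
    simp at h1
    omega
  · exact absurd rfl hf2
  · have h1 := prime_dvd hp (l := [127]) (m := 2 ^ (10 - 3) - 1) (by norm_num)
      (by intro q hq; simp at hq; rw [hq]; norm_num) hdvd
    simp at h1
    exfalso
    rw [h1] at hcount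
    norm_num at hcount
  · exact absurd rfl hf4

theorem facts_twelve (h12 : n = 12) (hF : IsAPN F) (hbij : Function.Bijective F)
    (hc : ∀ x, F (A x) = B (F x)) (hp : p.Prime) (hA : A ^ p = 1) (hne : A ≠ 1) :
    p = 5 ∨ p = 7 ∨ p = 13 ∨ p = 23 ∨ p = 73 ∨ p = 89 := by
  obtain ⟨f, hfix, hp2, hdvd, hlt, hf2, hf4, hcount, hthree, hsing⟩ :=
    prime_facts (by rw [h12]; exact ⟨6, rfl⟩) hF hbij hc hp hA hne
  rw [h12] at hdvd hlt hcount hsing
  have hf : f < 6 := by omega
  interval_cases f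
  · have h1 := prime_dvd hp (l := [3, 3, 5, 7, 13]) (m := 2 ^ (12 - 0) - 1) (by norm_num)
      (by intro q hq; simp at hq; rcases hq with rfl | rfl | rfl | rfl <;> norm_num) hdvd
    simp at h1
    rcases h1 with h1 | h1 | h1 | h1
    · have := hthree h1
      omega
    · omega
    · omega
    · omega
  · have h1 := prime_dvd hp (l := [23, 89]) (m := 2 ^ (12 - 1) - 1) (by norm_num)
      (by intro q hq; simp at hq; rcases hq with rfl | rfl <;> norm_num) hdvd
    simp at h1
    omega
  · exact absurd rfl hf2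
  · have h1 := prime_dvd hp (l := [7, 73]) (m := 2 ^ (12 - 3) - 1) (by norm_num)
      (by intro q hq; simp at hq; rcases hq with rfl | rfl <;> norm_num) hdvd
    simp at h1
    omega
  · exact absurd rfl hf4
  · have h1 := prime_dvd hp (l := [127]) (m := 2 ^ (12 - 5) - 1) (by norm_num)
      (by intro q hq; simp at hq; rw [hq]; norm_num) hdvd
    simp at h1
    exfalso
    rw [h1] at hcount
    norm_num at hcount

end Pool.Agent.H28.APN3
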