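import Pool.Agent.H28.APN3.Count
import Pool.Agent.H28.APN3.CycRing

/-! # Symmetries acting as a Singer cycle on a hyperplane -/

set_option autoImplicit false

namespace Pool.Agent.H28.APN3

open Pool.Agent.H42.APN Finset Module

variable {n : ℕ}

/-- an affine map of prime order `p` with two fixed points, `2^(n-1) = p + 1` -/
structure Sing (A : Aff n) (q : Vec n) (p : ℕ) : Prop where
  hp : p.Prime
  hp2 : ¬ p ∣ 2
  hA : A ^ p = 1
  hq : A q = q
  hk : finrank (ZMod 2) (LinearMap.ker (dN A)) = 1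
  hn : n = n - 1 + 1
  hcard : 2 ^ (n - 1) = p + 1

variable {A : Aff n} {q : Vec n} {p : ℕ}

theorem Sing.fixq (_h : Sing A q p) {v : Vec n} (hv : v ∈ LinearMap.ker (dN A)) (x : Vec n) :
    A (x + v) = A x + v := by
  have h1 : A.linear v = v := eq_of_add_eq_zero hv
  rw [aff_apply A (x + v), aff_apply A x, map_add, h1]
  abel

theorem Sing.disj (h : Sing A q p) {v : Vec n} (hk : v ∈ LinearMap.ker (dN A))
    (hr : v ∈ LinearMap.range (dN A)) : v = 0 := by
  obtain ⟨u, rfl⟩ := hr
  have h1 : A (u + q) + (u + q) = dN A u := by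
    rw [disp A h.hq, add_assoc, add_self, add_zero]
  have h2 : A (u + q) = (u + q) + dN A u := by
    rw [← h1, add_comm (A (u + q)), ← add_assoc, add_self, zero_add]
  have h3 : (A ^ 2) (u + q) = u + q := by
    have : (A ^ 2) (u + q) = A (A (u + q)) := by rw [sq]; rfl
    rw [this, h2, h.fixq hk, h2, add_assoc, add_self, add_zero]
  have h4 := fix_of_fix_pow h.hp h.hA h.hp2 h3
  rw [← h1, h4, add_self]

theorem Sing.exists_e (h : Sing A q p) : ∃ e : Vec n, e ≠ 0 ∧ e ∈ LinearMap.ker (dN A) ∧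
    ∀ k ∈ LinearMap.ker (dN A), k = 0 ∨ k = e := by
  have h1 := card_fibre (dN A) 0 0 (map_zero _)
  rw [h.hk, pow_one, card_eq_two] at h1
  obtain ⟨x, y, hxy, hs⟩ := h1
  have hm : ∀ k, k ∈ LinearMap.ker (dN A) ↔ k = x ∨ k = y := by
    intro k
    have h2 : k ∈ univ.filter (fun x : Vec n => dN A x = 0) ↔ k ∈ ({x, y} : Finset (Vec n)) := by
      rw [hs]
    rw [LinearMap.mem_ker]
    simpa using h2
  rcases (hm 0).1 (Submodule.zero_mem _) with h0 | h0
  · refine ⟨y, ?_, (hm y).2 (Or.inr rfl), ?_⟩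
    · rintro rfl
      exact hxy h0.symm
    · intro k hk
      rw [h0]
      exact (hm k).1 hk
  · refine ⟨x, ?_, (hm x).2 (Or.inl rfl), ?_⟩
    · rintro rfl
      exact hxy h0
    · intro k hk
      rw [h0]
      exact ((hm k).1 hk).symm

theorem Sing.cover (h : Sing A q p) {e : Vec n} (he0 : e ≠ 0) (hek : e ∈ LinearMap.ker (dN A))
    (he : ∀ k ∈ LinearMap.ker (dN A), k = 0 ∨ k = e) :
    (∀ x, x ∈ LinearMap.range (dN A) ∨ x + e ∈ LinearMap.range (dN A)) ∧
      e ∉ LinearMap.range (dN A) := by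
  have hd : Disjoint (LinearMap.ker (dN A)) (LinearMap.range (dN A)) := by
    rw [Submodule.disjoint_def]
    intro x hx hx'
    exact h.disj hx hx'
  have hs := finrank_sum (dN A)
  have ht : LinearMap.ker (dN A) ⊔ LinearMap.range (dN A) = ⊤ := by
    apply Submodule.eq_top_of_disjoint _ _ _ hd
    have : finrank (ZMod 2) (Vec n) = n := by simp
    rw [this]
    omega
  refine ⟨?_, fun h1 => he0 (h.disj hek h1)⟩
  intro x
  have hx : x ∈ LinearMap.ker (dN A) ⊔ LinearMap.range (dN A) := by rw [ht]; trivial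
  obtain ⟨k, hk, w, hw, rfl⟩ := Submodule.mem_sup.1 hx
  rcases he k hk with rfl | rfl
  · left
    rw [zero_add]
    exact hw
  · right
    have : k + w + k = w := by rw [add_comm k w, add_assoc, add_self, add_zero]
    rw [this]
    exact hw

open Classical in
theorem Sing.card_range (h : Sing A q p) :
    (univ.filter (fun w : Vec n => w ∈ LinearMap.range (dN A))).card = p + 1 := by
  classical
  have h1 := Pool.Agent.H42.APN.card_range (dN A) 0
  have hs := finrank_sum (dN A)
  have hr : finrank (ZMod 2) (LinearMap.range (dN A)) = n - 1 := by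
    have := h.hk
    omega
  rw [hr, h.hcard] at h1
  rw [← h1]
  refine congrArg Finset.card ?_
  ext w
  rw [mem_filter, mem_filter]
  refine and_congr_right fun _ => ?_
  constructor
  · rintro ⟨x, hx⟩
    exact ⟨x, by rw [add_zero]; exact hx⟩
  · rintro ⟨x, hx⟩
    exact ⟨x, by rw [add_zero] at hx; exact hx⟩

theorem Sing.mem_range (h : Sing A q p) {w : Vec n} (hw : w ∈ LinearMap.range (dN A)) (i : ℕ) :
    (A ^ i) (q + w) + q ∈ LinearMap.range (dN A) := by
  have h1 : (A ^ i) (q + w) + q = ((A ^ i) (q + w) + (q + w)) + w := by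
    have h2 : w + w = 0 := add_self w
    calc (A ^ i) (q + w) + q = (A ^ i) (q + w) + q + 0 := by rw [add_zero]
      _ = (A ^ i) (q + w) + q + (w + w) := by rw [h2]
      _ = _ := by abel
  rw [h1]
  refine Submodule.add_mem _ ?_ hw
  rw [disp_pow A h.hq]
  exact range_pow_le A h.hq i ⟨_, rfl⟩

/-- transitivity on the nonzero vectors of the range -/
theorem Sing.trans (h : Sing A q p) {w0 : Vec n} (hw0 : w0 ∈ LinearMap.range (dN A))
    (hw0' : w0 ≠ 0) {w : Vec n} (hw : w ∈ LinearMap.range (dN A)) (hw' : w ≠ 0) :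
    ∃ i : ℕ, (A ^ i) (q + w0) = q + w := by
  classical
  have hx : A (q + w0) ≠ q + w0 := by
    intro h1
    apply hw0'
    refine h.disj ?_ hw0
    have h2 := disp A h.hq (q + w0)
    rw [h1, add_self] at h2
    rw [LinearMap.mem_ker, ← (show q + w0 + q = w0 by
      rw [add_comm q w0, add_assoc, add_self, add_zero])]
    exact h2.symm
  let P : Finset (Vec n) := (range p).image (fun i => (A ^ i) (q + w0) + q)
  have hP : P.card = p := by
    show ((range p).image (fun i => (A ^ i) (q + w0) + q)).card = p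
    rw [card_image_of_injOn, Finset.card_range]
    intro i hi j hj hij
    have h3 : (A ^ i) (q + w0) = (A ^ j) (q + w0) := add_right_cancel hij
    rw [mem_coe, Finset.mem_range] at hi hj
    by_contra hne
    rcases lt_or_gt_of_ne hne with hl | hl
    · obtain ⟨d, rfl⟩ := Nat.exists_eq_add_of_le hl.le
      have h5 : (A ^ (i + d)) (q + w0) = (A ^ i) ((A ^ d) (q + w0)) := by rw [pow_add]; rfl
      rw [h5] at h3
      have h6 : (A ^ d) (q + w0) = q + w0 := ((A ^ i).injective h3).symm
      exact hx (fix_of_fix_pow h.hp h.hA (Nat.not_dvd_of_pos_of_lt (by omega) (by omega)) h6)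
    · obtain ⟨d, rfl⟩ := Nat.exists_eq_add_of_le hl.le
      have h5 : (A ^ (j + d)) (q + w0) = (A ^ j) ((A ^ d) (q + w0)) := by rw [pow_add]; rfl
      rw [h5] at h3
      have h6 : (A ^ d) (q + w0) = q + w0 := (A ^ j).injective h3
      exact hx (fix_of_fix_pow h.hp h.hA (Nat.not_dvd_of_pos_of_lt (by omega) (by omega)) h6)
  let W0 : Finset (Vec n) :=
    (univ.filter (fun w : Vec n => w ∈ LinearMap.range (dN A))).erase 0
  have hW0 : W0.card = p := by
    show ((univ.filter (fun w : Vec n => w ∈ LinearMap.range (dN A))).erase 0).card = p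
    rw [card_erase_of_mem, h.card_range]
    · omega
    · rw [mem_filter]
      exact ⟨mem_univ _, Submodule.zero_mem _⟩
  have hsub : P ⊆ W0 := by
    intro y hy
    obtain ⟨i, hi, rfl⟩ := mem_image.1 hy
    refine mem_erase.2 ⟨?_, mem_filter.2 ⟨mem_univ _, h.mem_range hw0 i⟩⟩
    intro h0
    have h1 : (A ^ i) (q + w0) = q := eq_of_add_eq_zero h0
    have h2 : (A ^ i) (q + w0) = (A ^ i) q := by rw [h1, fix_pow h.hq]
    have h3 := (A ^ i).injective h2
    apply hw0'
    have h4 : q + w0 = q + 0 := by rw [add_zero]; exact h3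
    exact add_left_cancel h4
  have heq : P = W0 := eq_of_subset_of_card_le hsub (by rw [hP, hW0])
  have hwm : w ∈ W0 := mem_erase.2 ⟨hw', mem_filter.2 ⟨mem_univ _, hw⟩⟩
  rw [← heq] at hwm
  obtain ⟨i, _, hi⟩ := mem_image.1 hwm
  refine ⟨i, ?_⟩
  have h7 : (A ^ i) (q + w0) + q = w := hi
  have h8 : q + ((A ^ i) (q + w0) + q) = (A ^ i) (q + w0) := by
    rw [add_comm ((A ^ i) (q + w0)) q, add_cancel_mid]
  rw [← h7, h8]

end Pool.Agent.H28.APN3
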