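import Pool.Agent.H28.APN3.Singer

/-! # No symmetry acting as a Singer cycle -/

set_option autoImplicit false

namespace Pool.Agent.H28.APN3

open Pool.Agent.H42.APN Finset Module

variable {n : ℕ} {A : Aff n} {q : Vec n} {p : ℕ}

/-- the linear part on the range -/
noncomputable def gam (A : Aff n) : Module.End (ZMod 2) (LinearMap.range (dN A)) :=
  (A.linear : Vec n →ₗ[ZMod 2] Vec n).restrict (by
    rintro _ ⟨v, rfl⟩
    refine ⟨A.linear v, ?_⟩
    show A.linear (A.linear v) + A.linear v = A.linear (A.linear v + v)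
    rw [map_add])

theorem gam_pow (h : Sing A q p) (i : ℕ) (w : LinearMap.range (dN A)) :
    q + (((gam A) ^ i) w : LinearMap.range (dN A)) = (A ^ i) (q + (w : Vec n)) := by
  induction i with
  | zero => rfl
  | succ i ih =>
    rw [pow_succ', pow_apply_succ, ← ih]
    show q + A.linear (((gam A) ^ i) w : LinearMap.range (dN A)) = A (q + _)
    rw [aff_apply A (q + _), map_add]
    have h1 : A.linear q + A 0 = q := by rw [← aff_apply A q, h.hq]
    calc q + A.linear (((gam A) ^ i) w : LinearMap.range (dN A))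
        = (A.linear q + A 0) + A.linear (((gam A) ^ i) w : LinearMap.range (dN A)) := by rw [h1]
      _ = _ := by abel

theorem cyc_gam (h : Sing A q p) {w0 : Vec n} (hw0 : w0 ∈ LinearMap.range (dN A))
    (hw0' : w0 ≠ 0) : Cyc (gam A) (⟨w0, hw0⟩ : LinearMap.range (dN A)) p where
  p0 := h.hp.pos
  hp := by
    ext w
    have h1 := gam_pow h p w
    rw [h.hA] at h1
    exact congrFun (add_left_cancel h1) _
  w0ne := fun h0 => hw0' (congrArg Subtype.val h0)
  tr := by
    rintro ⟨w, hw⟩ hw'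
    obtain ⟨i, hi⟩ := h.trans hw0 hw0' hw (fun h0 => hw' (Subtype.ext h0))
    refine ⟨i, Subtype.ext ?_⟩
    have h1 := gam_pow h i ⟨w0, hw0⟩
    rw [hi] at h1
    exact add_left_cancel h1

theorem Sing.nonfix (h : Sing A q p) {w0 : Vec n} (hw0 : w0 ∈ LinearMap.range (dN A))
    (hw0' : w0 ≠ 0) : A (q + w0) ≠ q + w0 := by
  intro h1
  apply hw0'
  refine h.disj ?_ hw0
  have h2 := disp A h.hq (q + w0)
  rw [h1, add_self] at h2
  rw [LinearMap.mem_ker, ← (show q + w0 + q = w0 by
    rw [add_comm q w0, add_assoc, add_self, add_zero])]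
  exact h2.symm

theorem gam_eq_iff (h : Sing A q p) {w0 : Vec n} (hw0 : w0 ∈ LinearMap.range (dN A))
    (hw0' : w0 ≠ 0) (i j : ℕ) : (gam A) ^ i = (gam A) ^ j ↔ A ^ i = A ^ j := by
  constructor
  · intro he
    refine pow_eq_of_apply_eq h.hp h.hA (h.nonfix hw0 hw0') (x := q + w0) ?_
    rw [← gam_pow h i ⟨w0, hw0⟩, ← gam_pow h j ⟨w0, hw0⟩, he]
  · intro he
    ext w
    have h1 := gam_pow h i w
    rw [he, ← gam_pow h j w] at h1
    exact congrFun (add_left_cancel h1) _

end Pool.Agent.H28.APN3
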