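import Pool.Agent.H28.APN3.Singer2

/-! # No symmetry acting as a Singer cycle: conclusion -/

set_option autoImplicit false

namespace Pool.Agent.H28.APN3

open Pool.Agent.H42.APN Finset Module

variable {n : ℕ} {A B : Aff n} {q : Vec n} {p : ℕ} {F : Vec n → Vec n}

theorem Sing.fixq_pow (h : Sing A q p) {v : Vec n} (hv : v ∈ LinearMap.ker (dN A)) (i : ℕ)
    (x : Vec n) : (A ^ i) (x + v) = (A ^ i) x + v := by
  induction i with
  | zero => rfl
  | succ i ih => rw [pow_apply_succ, ih, h.fixq hv, pow_apply_succ]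

theorem Sing.card_coe (h : Sing A q p) [Fintype (LinearMap.range (dN A))] :
    Fintype.card (LinearMap.range (dN A)) = p + 1 := by
  have h2 := Module.card_eq_pow_finrank (K := ZMod 2) (V := LinearMap.range (dN A))
  rw [ZMod.card] at h2
  rw [h2]
  have hs := finrank_sum (dN A)
  have hr : finrank (ZMod 2) (LinearMap.range (dN A)) = n - 1 := by
    have := h.hk
    omega
  rw [hr, h.hcard]

/-- first case: the hyperplanes correspond -/
theorem case_one (hF : IsAPN F) (hbij : Function.Bijective F) (hc : ∀ x, F (A x) = B (F x))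
    (h : Sing A q p) (h' : Sing B (F q) p) {w0 : Vec n} (hw0 : w0 ∈ LinearMap.range (dN A))
    (hw0' : w0 ≠ 0) (hu : F (q + w0) + F q ∈ LinearMap.range (dN B)) : False := by
  classical
  obtain ⟨e', he0', hek', he'⟩ := h'.exists_e
  obtain ⟨hcov', -⟩ := h'.cover he0' hek' he'
  have hP : ∀ w ∈ LinearMap.range (dN A), F (q + w) + F q ∈ LinearMap.range (dN B) := by
    intro w hw
    by_cases hw' : w = 0
    · rw [hw', add_zero, add_self]
      exact Submodule.zero_mem _
    · obtain ⟨i, hi⟩ := h.trans hw0 hw0' hw hw'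
      rw [← hi, hc_pow hc]
      have h1 : F (q + w0) = F q + (F (q + w0) + F q) := by
        rw [add_comm (F (q + w0)), add_cancel_mid]
      rw [h1]
      exact h'.mem_range hu i
  have himg : (univ.filter (fun w : Vec n => w ∈ LinearMap.range (dN A))).image
      (fun w => F (q + w) + F q) = univ.filter (fun w : Vec n => w ∈ LinearMap.range (dN B)) := by
    refine eq_of_subset_of_card_le ?_ ?_
    · intro y hy
      obtain ⟨w, hw, rfl⟩ := mem_image.1 hy
      exact mem_filter.2 ⟨mem_univ _, hP w (mem_filter.1 hw).2⟩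
    · rw [card_image_of_injective, h.card_range, h'.card_range]
      intro x y hxy
      exact add_left_cancel (hbij.1 (add_right_cancel hxy))
  have hN : ∀ x, x ∉ LinearMap.range (dN A) → F (q + x) + F q ∉ LinearMap.range (dN B) := by
    intro x hx hy
    have h1 : F (q + x) + F q ∈ (univ.filter (fun w : Vec n => w ∈ LinearMap.range (dN A))).image
        (fun w => F (q + w) + F q) := by
      rw [himg]
      exact mem_filter.2 ⟨mem_univ _, hy⟩
    obtain ⟨w, hw, hwx⟩ := mem_image.1 h1
    have h2 : w = x := add_left_cancel (hbij.1 (add_right_cancel hwx))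
    rw [← h2] at hx
    exact hx (mem_filter.1 hw).2
  have hall : ∀ x, F (x + w0) + F x ∈ LinearMap.range (dN B) := by
    intro x
    obtain ⟨x', rfl⟩ : ∃ x', x = q + x' := ⟨q + x, (add_cancel_mid q x).symm⟩
    by_cases hx : x' ∈ LinearMap.range (dN A)
    · have h1 := Submodule.add_mem _ (hP _ (Submodule.add_mem _ hx hw0)) (hP _ hx)
      have e : F (q + (x' + w0)) + F q + (F (q + x') + F q) = F (q + x' + w0) + F (q + x') := by
        have h2 : F q + F q = 0 := add_self _
        rw [← add_assoc q x' w0]
        calc F (q + x' + w0) + F q + (F (q + x') + F q)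
            = F (q + x' + w0) + F (q + x') + (F q + F q) := by abel
          _ = _ := by rw [h2, add_zero]
      rw [e] at h1
      exact h1
    · have hx2 : x' + w0 ∉ LinearMap.range (dN A) := by
        intro h1
        apply hx
        have h2 := Submodule.add_mem _ h1 hw0
        rw [add_assoc, add_self, add_zero] at h2
        exact h2
      have h1 := (hcov' _).resolve_left (hN _ hx)
      have h2 := (hcov' _).resolve_left (hN _ hx2)
      have h3 := Submodule.add_mem _ h2 h1
      have e : F (q + (x' + w0)) + F q + e' + (F (q + x') + F q + e') =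
          F (q + x' + w0) + F (q + x') := by
        have h2 : F q + F q = 0 := add_self _
        have h4 : e' + e' = 0 := add_self _
        rw [← add_assoc q x' w0]
        calc F (q + x' + w0) + F q + e' + (F (q + x') + F q + e')
            = F (q + x' + w0) + F (q + x') + (F q + F q) + (e' + e') := by abel
          _ = _ := by rw [h2, h4, add_zero, add_zero]
      rw [e] at h3
      exact h3
  have hBq' : dN B (F q) = B 0 := ((lin_aff B).fix_iff _).1 h'.hq
  have h2 := card_valS_lt hBq'
  have hs := finrank_sum (dN B)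
  have hr : finrank (ZMod 2) (LinearMap.range (dN B)) = n - 1 := by
    have := h'.hk
    omega
  rw [hr, h'.hcard] at h2
  have h3 := card_le_two_mul hF hw0' univ (valS (dN B) (B 0)) (by
    intro x _
    obtain ⟨w, hw⟩ := hall x
    unfold valS
    rw [mem_filter]
    refine ⟨mem_univ _, ⟨w + F q, ?_⟩, ?_⟩
    · rw [map_add, hBq', add_assoc, add_self, add_zero, hw]
    · intro h0
      have h6 := hbij.1 (eq_of_add_eq_zero h0)
      apply hw0'
      have h7 : x + w0 = x + 0 := by rw [add_zero]; exact h6
      exact add_left_cancel h7)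
  have hV : Fintype.card (Vec n) = 2 ^ n := by
    rw [Fintype.card_fun, ZMod.card, Fintype.card_fin]
  have h2n : 2 ^ n = 2 ^ (n - 1) * 2 := by
    conv_lhs => rw [h'.hn, pow_succ]
  rw [card_univ, hV, h2n, h'.hcard] at h3
  omega

theorem alg1 (f a b c d : Vec n) (h1 : a + b = c + d) :
    f + a + (f + b) + (f + c) + (f + d) = 0 := by
  have h4 : f + f = 0 := add_self _
  calc f + a + (f + b) + (f + c) + (f + d)
      = (f + f) + (f + f) + ((a + b) + (c + d)) := by abel
    _ = 0 := by rw [h1, add_self (c + d), h4, add_zero, add_zero]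

theorem alg2 (f e a b c d : Vec n) (h1 : a + b = c + d) :
    f + a + (f + b) + (f + e + c) + (f + e + d) = 0 := by
  have h4 : f + f = 0 := add_self _
  have h5 : e + e = 0 := add_self _
  calc f + a + (f + b) + (f + e + c) + (f + e + d)
      = (f + f) + (f + f) + (e + e) + ((a + b) + (c + d)) := by abel
    _ = 0 := by rw [h1, add_self (c + d), h4, h5, add_zero, add_zero, add_zero]

theorem pow_iff (hbij : Function.Bijective F) (hc : ∀ x, F (A x) = B (F x)) (i j : ℕ) :
    A ^ i = A ^ j ↔ B ^ i = B ^ j := by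
  constructor
  · intro he
    ext1 y
    obtain ⟨x, rfl⟩ := hbij.2 y
    rw [← hc_pow hc, ← hc_pow hc, he]
  · intro he
    ext1 x
    apply hbij.1
    rw [hc_pow hc, hc_pow hc, he]

/-- the theorem -/
theorem no_singer (hF : IsAPN F) (hbij : Function.Bijective F) (hc : ∀ x, F (A x) = B (F x))
    (h : Sing A q p) (h' : Sing B (F q) p) (h5 : 5 ≤ p + 1) : False := by
  classical
  obtain ⟨e, he0, hek, he⟩ := h.exists_e
  obtain ⟨hcov, heR⟩ := h.cover he0 hek he
  obtain ⟨e', he0', hek', he'⟩ := h'.exists_e
  obtain ⟨hcov', heR'⟩ := h'.cover he0' hek' he'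
  obtain ⟨w0, hw0m, hw0'⟩ := Finset.exists_mem_ne
    (s := univ.filter (fun w : Vec n => w ∈ LinearMap.range (dN A))) (by
      rw [h.card_range]; omega) 0
  have hw0 : w0 ∈ LinearMap.range (dN A) := (mem_filter.1 hw0m).2
  by_cases hu : F (q + w0) + F q ∈ LinearMap.range (dN B)
  · exact case_one hF hbij hc h h' hw0 hw0' hu
  -- second case
  set v : Vec n := F (q + e + w0) + F q with hvdef
  set u1 : Vec n := F (q + w0) + F q + e' with hu1def
  have hu1 : u1 ∈ LinearMap.range (dN B) := (hcov' _).resolve_left hu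
  have hBe : ∀ y, B y = y → B (y + e') = y + e' := by
    intro y hy
    rw [h'.fixq hek', hy]
  have hu1' : u1 ≠ 0 := by
    intro h0
    have h1 : F (q + w0) = F q + e' := by
      have h2 : F (q + w0) + (F q + e') = 0 := by rw [← add_assoc]; exact h0
      exact eq_of_add_eq_zero h2
    apply h.nonfix hw0 hw0'
    apply hbij.1
    rw [hc, h1]
    exact hBe _ h'.hq
  have hqe : A (q + e) = q + e := by rw [h.fixq hek, h.hq]
  have hnf : A (q + e + w0) ≠ q + e + w0 := by
    intro h1
    apply h.nonfix hw0 hw0'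
    have h2 : q + e + w0 = q + w0 + e := by abel
    rw [h2, h.fixq hek] at h1
    exact add_right_cancel h1
  have hv : v ∈ LinearMap.range (dN B) := by
    by_contra hv
    have hv1 : v + e' ∈ LinearMap.range (dN B) := (hcov' _).resolve_left hv
    have hv1' : v + e' ≠ 0 := by
      intro h0
      have h1 : F (q + e + w0) = F q + e' := by
        have h2 : F (q + e + w0) + (F q + e') = 0 := by rw [← add_assoc]; exact h0
        exact eq_of_add_eq_zero h2
      apply hnf
      apply hbij.1
      rw [hc, h1]
      exact hBe _ h'.hq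
    obtain ⟨i, hi⟩ := h'.trans hu1 hu1' hv1 hv1'
    have h1 : F q + u1 = F (q + w0) + e' := by
      rw [hu1def]
      have h2 : F q + F q = 0 := add_self _
      calc F q + (F (q + w0) + F q + e') = F (q + w0) + e' + (F q + F q) := by abel
        _ = _ := by rw [h2, add_zero]
    have h3 : F q + (v + e') = F (q + e + w0) + e' := by
      rw [hvdef]
      have h2 : F q + F q = 0 := add_self _
      calc F q + (F (q + e + w0) + F q + e') = F (q + e + w0) + e' + (F q + F q) := by abel
        _ = _ := by rw [h2, add_zero]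
    rw [h1, h3, h'.fixq_pow hek'] at hi
    have h4 := add_right_cancel hi
    rw [← hc_pow hc] at h4
    have h5 := hbij.1 h4
    have h6 := h.mem_range hw0 i
    rw [h5] at h6
    have h7 : q + e + w0 + q = e + w0 := by
      have h2 : q + q = 0 := add_self _
      calc q + e + w0 + q = e + w0 + (q + q) := by abel
        _ = _ := by rw [h2, add_zero]
    rw [h7] at h6
    have h8 := Submodule.add_mem _ h6 hw0
    rw [add_assoc, add_self, add_zero] at h8
    exact heR h8
  have hv' : v ≠ 0 := by
    intro h0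
    have h1 := hbij.1 (eq_of_add_eq_zero h0)
    apply hnf
    rw [h1, h.hq]
  -- the two fields
  have hC := cyc_gam h hw0 hw0'
  have hC' := cyc_gam h' hv hv'
  obtain ⟨ψ, hψ0, hψp, hψi, hψs⟩ := exists_psi hC hC' (fun i j => by
    rw [gam_eq_iff h hw0 hw0', gam_eq_iff h' hv hv', pow_iff hbij hc])
  let _ : Fintype (LinearMap.range (dN A)) := Fintype.ofFinite _
  let _ : Fintype (LinearMap.range (dN B)) := Fintype.ofFinite _
  let _ : Fintype hC.ring := Fintype.ofBijective _ (Equiv.ofBijective _ hC.eval_bij).symm.bijective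
  let _ : Fintype hC'.ring :=
    Fintype.ofBijective _ (Equiv.ofBijective _ hC'.eval_bij).symm.bijective
  have hc1 : Fintype.card hC.ring = p + 1 := by rw [hC.card, h.card_coe]
  have hc2 : Fintype.card hC'.ring = p + 1 := by rw [hC'.card, h'.card_coe]
  obtain ⟨r, hr⟩ := hC'.eval_bij.2 ⟨u1, hu1⟩
  have hr0 : r ≠ 0 := by
    intro h0
    apply hu1'
    rw [h0] at hr
    exact (congrArg Subtype.val hr).symm
  have hone : (1 : hC.ring) + 1 = 0 := by
    have h2 := hC.two
    rw [← h2]
    norm_num
  have hx1 : ∀ x : hC.ring, x ≠ 1 → x + 1 ≠ 0 := by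
    intro x hx h0
    apply hx
    have h1 : x + 1 + 1 = 0 + 1 := by rw [h0]
    rw [add_assoc, hone, add_zero, zero_add] at h1
    exact h1
  -- evaluation
  let ev : hC.ring → Vec n := fun x =>
    ((x : Module.End (ZMod 2) (LinearMap.range (dN A))) ⟨w0, hw0⟩ : LinearMap.range (dN A))
  let ev' : hC'.ring → Vec n := fun x =>
    ((x : Module.End (ZMod 2) (LinearMap.range (dN B))) ⟨v, hv⟩ : LinearMap.range (dN B))
  have hev1 : ∀ x, ev (x + 1) = ev x + w0 := fun x => rfl
  have hevR : ∀ x, ev x ∈ LinearMap.range (dN A) := fun x => Subtype.prop _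
  have hevi : ∀ x y, ev x = ev y → x = y := fun x y hxy => hC.eval_inj (Subtype.ext hxy)
  have hev'a : ∀ x y, ev' (x + y) = ev' x + ev' y := fun x y => rfl
  have hE1 : ∀ x : hC.ring, x ≠ 0 → F (q + e + ev x) = F q + ev' (ψ x) := by
    intro x hx
    obtain ⟨i, rfl⟩ := hC.ne_zero_iff x hx
    rw [hψp]
    have h1 : (A ^ i) (q + w0) = q + ev (hC.pw i) := (gam_pow h i ⟨w0, hw0⟩).symm
    have h2 : (B ^ i) (F q + v) = F q + ev' (hC'.pw i) := (gam_pow h' i ⟨v, hv⟩).symm
    have h3 : q + e + ev (hC.pw i) = (A ^ i) (q + w0 + e) := by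
      rw [h.fixq_pow hek, h1]
      abel
    have h4 : q + w0 + e = q + e + w0 := by abel
    rw [h3, hc_pow hc, ← h2, h4, hvdef, add_comm (F (q + e + w0)), add_cancel_mid]
  have hE2 : ∀ x : hC.ring, x ≠ 0 → F (q + ev x) = F q + e' + ev' (r * ψ x) := by
    intro x hx
    obtain ⟨i, rfl⟩ := hC.ne_zero_iff x hx
    rw [hψp]
    have h1 : (A ^ i) (q + w0) = q + ev (hC.pw i) := (gam_pow h i ⟨w0, hw0⟩).symm
    have h2 : (B ^ i) (F q + u1) = F q + (((gam B) ^ i) ⟨u1, hu1⟩ : LinearMap.range (dN B)) :=
      (gam_pow h' i ⟨u1, hu1⟩).symm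
    have h5 : ev' (r * hC'.pw i) = (((gam B) ^ i) ⟨u1, hu1⟩ : LinearMap.range (dN B)) := by
      rw [hC'.isField.mul_comm]
      show (((gam B) ^ i) ((r : Module.End (ZMod 2) (LinearMap.range (dN B))) ⟨v, hv⟩) :
        LinearMap.range (dN B)) = (((gam B) ^ i) ⟨u1, hu1⟩ : LinearMap.range (dN B)).1
      have hr' : (r : Module.End (ZMod 2) (LinearMap.range (dN B))) ⟨v, hv⟩ = ⟨u1, hu1⟩ := hr
      rw [hr']
    have h6 : F (q + w0) = F q + u1 + e' := by
      rw [hu1def]
      have h2 : F q + F q = 0 := add_self _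
      have h3 : e' + e' = 0 := add_self _
      calc F (q + w0) = F (q + w0) + 0 + 0 := by rw [add_zero, add_zero]
        _ = F (q + w0) + (F q + F q) + (e' + e') := by rw [h2, h3]
        _ = F q + (F (q + w0) + F q + e') + e' := by abel
    rw [← h1, hc_pow hc, h6, h'.fixq_pow hek', h2, h5]
    abel
  refine ring_lemma hC.isField hC'.isField hC.two hC'.two (by rw [hc1, hc2]) (by rw [hc2]; exact h5)
    ψ hψi hψs r hr0 ?_ ?_
  · intro x y hx0 hx1' hy0 hy1' hxy
    by_contra hne
    push Not at hne
    have h1 := congrArg ev' hxy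
    rw [hev'a, hev'a] at h1
    have a1 := hE1 x hx0
    have a2 := hE1 (x + 1) (hx1 x hx1')
    have a3 := hE1 y hy0
    have a4 := hE1 (y + 1) (hx1 y hy1')
    refine flat_ne hF (x := q + e + ev x) (y := q + e + ev (x + 1)) (z := q + e + ev y) ?_ ?_ ?_ ?_
    · intro h2
      have h3 := add_left_cancel h2
      rw [hev1] at h3
      apply hw0'
      have h4 : ev x + 0 = ev x + w0 := by rw [add_zero]; exact h3
      exact (add_left_cancel h4).symm
    · intro h2
      exact hne.1 (hevi _ _ (add_left_cancel h2)).symm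
    · intro h2
      exact hne.2 (hevi _ _ (add_left_cancel h2)).symm
    · have h3 : q + e + ev x + (q + e + ev (x + 1)) + (q + e + ev y) = q + e + ev (y + 1) := by
        rw [hev1, hev1]
        have h4 : (q + e + ev x) + (q + e + ev x) = 0 := add_self _
        calc q + e + ev x + (q + e + (ev x + w0)) + (q + e + ev y)
            = (q + e + ev x) + (q + e + ev x) + (q + e + (ev y + w0)) := by abel
          _ = _ := by rw [h4, zero_add]
      rw [h3, a1, a2, a3, a4]
      exact alg1 _ _ _ _ _ h1
  · intro x y hx0 hx1' hy0 hy1' hxy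
    have h1 := congrArg ev' hxy
    rw [mul_add, hev'a, hev'a] at h1
    have a1 := hE1 x hx0
    have a2 := hE1 (x + 1) (hx1 x hx1')
    have a3 := hE2 y hy0
    have a4 := hE2 (y + 1) (hx1 y hy1')
    have hne : ∀ x y : hC.ring, q + e + ev x ≠ q + ev y := by
      intro x y h2
      rw [add_assoc] at h2
      have h3 := add_left_cancel h2
      have h4 := Submodule.add_mem _ (hevR y) (hevR x)
      rw [← h3, add_assoc, add_self, add_zero] at h4
      exact heR h4
    refine flat_ne hF (x := q + e + ev x) (y := q + e + ev (x + 1)) (z := q + ev y) ?_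
      (hne _ _) (hne _ _) ?_
    · intro h2
      have h3 := add_left_cancel h2
      rw [hev1] at h3
      apply hw0'
      have h4 : ev x + 0 = ev x + w0 := by rw [add_zero]; exact h3
      exact (add_left_cancel h4).symm
    · have h3 : q + e + ev x + (q + e + ev (x + 1)) + (q + ev y) = q + ev (y + 1) := by
        rw [hev1, hev1]
        have h4 : (q + e + ev x) + (q + e + ev x) = 0 := add_self _
        calc q + e + ev x + (q + e + (ev x + w0)) + (q + ev y)
            = (q + e + ev x) + (q + e + ev x) + (q + (ev y + w0)) := by abel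
          _ = _ := by rw [h4, zero_add]
      rw [h3, a1, a2, a3, a4]
      exact alg2 _ _ _ _ _ _ h1

end Pool.Agent.H28.APN3
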