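import Pool.Agent.H28.APN3.Final
import Pool.Agent.H28.APN3.Defs

/-! # Affine symmetries of APN permutations: the elementary form -/

set_option autoImplicit false

namespace Pool.Agent.H28.APN3

open Pool.Agent.H42.APN

variable {n : ℕ}

theorem affine_of {A : APN.V n → APN.V n} (h : APN.AffinePerm A) :
    ∃ E : Aff n, ∀ x, E x = A x := by
  obtain ⟨hb, ha⟩ := h
  let L : Vec n →+ Vec n :=
    { toFun := fun x => A x - A 0
      map_zero' := sub_self _
      map_add' := ha }
  let L' : Vec n →ₗ[ZMod 2] Vec n := AddMonoidHom.toZModLinearMap 2 L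
  have hL : ∀ x, L' x = A x - A 0 := fun x => rfl
  have hLb : Function.Bijective L' := by
    constructor
    · intro x y hxy
      rw [hL, hL] at hxy
      exact hb.1 (sub_left_injective hxy)
    · intro y
      obtain ⟨x, hx⟩ := hb.2 (y + A 0)
      exact ⟨x, by rw [hL, hx, add_sub_cancel_right]⟩
  refine ⟨{ toEquiv := Equiv.ofBijective A hb
            linear := LinearEquiv.ofBijective L' hLb
            map_vadd' := ?_ }, fun x => rfl⟩
  intro p v
  show A (v + p) = (A v - A 0) + A p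
  have h1 := ha v p
  have h2 : A (v + p) = (A v - A 0) + (A p - A 0) + A 0 := by rw [← h1, sub_add_cancel]
  rw [h2, add_assoc, sub_add_cancel]

theorem affine_to (E : Aff n) : APN.AffinePerm (fun x => E x) := by
  refine ⟨E.bijective, fun x y => ?_⟩
  show E (x + y) - E 0 = (E x - E 0) + (E y - E 0)
  rw [aff_apply E (x + y), aff_apply E x, aff_apply E y, map_add]
  abel

theorem isAPN_of {F : APN.V n → APN.V n} (h : APN.APNPerm F) : IsAPN F := by
  intro a b ha
  have h1 := h.2 a b ha
  rw [Set.ncard_eq_toFinset_card'] at h1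
  refine le_trans (Finset.card_le_card ?_) h1
  intro x hx
  rw [Set.mem_toFinset]
  exact (Finset.mem_filter.1 hx).2

theorem fix_eq (E : Aff n) {A : APN.V n → APN.V n} (h : ∀ x, E x = A x) :
    APN.fix A = Nat.card {x : Vec n // E x = x} := by
  unfold APN.fix
  rw [← Nat.card_coe_set_eq]
  refine Nat.card_congr (Equiv.subtypeEquivRight fun x => ?_)
  show A x = x ↔ E x = x
  rw [h]

theorem card_sym (F : APN.V n → APN.V n) : (APN.Sym F).ncard = Nat.card (Sym F) := by
  rw [← Nat.card_coe_set_eq]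
  symm
  refine Nat.card_eq_of_bijective
    (fun g : Sym F => (⟨(fun x => g.1.1 x, fun x => g.1.2 x),
      affine_to g.1.1, affine_to g.1.2, g.2⟩ : APN.Sym F)) ⟨?_, ?_⟩
  · intro g h hgh
    have h1 := congrArg Subtype.val hgh
    have h2 := congrArg Prod.fst h1
    have h3 := congrArg Prod.snd h1
    apply Subtype.ext
    apply Prod.ext
    · ext1 x
      exact congrFun h2 x
    · ext1 x
      exact congrFun h3 x
  · rintro ⟨⟨A, B⟩, hA, hB, hc⟩
    obtain ⟨E, hE⟩ := affine_of hA
    obtain ⟨E', hE'⟩ := affine_of hB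
    refine ⟨⟨(E, E'), fun x => ?_⟩, ?_⟩
    · show F (E x) = E' (F x)
      rw [hE, hE']
      exact hc x
    · apply Subtype.ext
      apply Prod.ext
      · funext x
        exact hE x
      · funext x
        exact hE' x

theorem order_three {E : Aff n} (h3 : ∀ x, E (E (E x)) = x) (h1 : ∃ x, E x ≠ x) :
    orderOf E = 3 := by
  apply orderOf_eq_prime_iff.2 ?_ |>.trans rfl
  constructor
  · rw [pow_succ', sq]
    ext1 x
    exact h3 x
  · rintro rfl
    obtain ⟨x, hx⟩ := h1
    exact hx rfl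

/-- the theorem in elementary form -/
theorem main (n : ℕ) (hn : Even n) (F : APN.V n → APN.V n) (hF : APN.APNPerm F) :
    (∀ A B : APN.V n → APN.V n, (A, B) ∈ APN.Sym F →
      APN.fix A ≠ 4 ∧ APN.fix A ≠ 16 ∧
      ((∀ x, A (A (A x)) = x) → A ≠ id → 14 ≤ n ∧ 64 ≤ APN.fix A) ∧
      (n = 8 → A ≠ id → APN.fix A = 1)) ∧
    ((2 ^ (n - 1) - 1).Prime → ¬ (2 ^ (n - 1) - 1) ∣ (APN.Sym F).ncard) ∧
    (n = 8 → (APN.Sym F).ncard ∣ 85) ∧
    (n = 10 → (APN.Sym F).ncard ∣ 341 ∨ (APN.Sym F).ncard ∣ 511) ∧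
    (n = 12 → ∀ p : ℕ, p.Prime → p ∣ (APN.Sym F).ncard →
      p = 5 ∨ p = 7 ∨ p = 13 ∨ p = 23 ∨ p = 73 ∨ p = 89) := by
  have hapn := isAPN_of hF
  have hbij := hF.1
  rw [card_sym]
  refine ⟨?_, fun hp => mersenne hn hapn hbij hp, fun h8 => card_eight h8 hapn hbij,
    fun h10 => card_ten h10 hapn hbij, fun h12 p hp hd => ?_⟩
  · intro A B hAB
    obtain ⟨hA, hB, hc⟩ := hAB
    obtain ⟨E, hE⟩ : ∃ E : Aff n, ∀ x, E x = A x := affine_of hA
    obtain ⟨E', hE'⟩ : ∃ E : Aff n, ∀ x, E x = B x := affine_of hB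
    have hc' : ∀ x, F (E x) = E' (F x) := by
      intro x
      rw [hE, hE']
      exact hc x
    obtain ⟨h1, h2, h3⟩ := general hn hapn hbij hc'
    rw [fix_eq E hE]
    have hid : A ≠ id → ∃ x, E x ≠ x := by
      intro hne
      by_contra hno
      push Not at hno
      apply hne
      funext x
      rw [← hE, hno]
      rfl
    refine ⟨h1, h2, fun h4 hne => h3 (order_three ?_ (hid hne)), fun h8 hne => ?_⟩
    · intro x
      rw [hE, hE, hE]
      exact h4 x
    · refine one_fixed h8 hapn hbij hc' ?_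
      rintro rfl
      obtain ⟨x, hx⟩ := hid hne
      exact hx rfl
  · have h1 := twelve h12 hapn hbij hp hd
    simp only [Finset.mem_insert, Finset.mem_singleton] at h1
    exact h1

end Pool.Agent.H28.APN3
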