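import Pool.Agent.H28.APN3.Group

/-! # The group of affine symmetries in dimension ten -/

set_option autoImplicit false

namespace Pool.Agent.H28.APN3

open Pool.Agent.H42.APN Finset Module

/-- a group of squarefree order coprime to the order of the automorphisms of its cyclic subgroups is
commutative -/
theorem comm_of_coprime {G : Type} [Group G] [Finite G] {m : ℕ} (hsq : Squarefree (Nat.card G))
    (hd : Nat.card G ∣ m) (hm : Nat.Coprime m m.totient) (a b : G) : a * b = b * a := by
  have hZ : IsZGroup G := IsZGroup.of_squarefree hsq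
  have hC : IsCyclic (commutator G) := IsZGroup.isCyclic_commutator G
  have hA : IsCyclic (Abelianization G) := inferInstance
  refine ((Abelianization.of (G := G)).isMulCommutative_of_isCyclic_of_ker_le_center
    ?_).is_comm.comm a b
  rw [Abelianization.ker_of]
  intro c hc
  rw [Subgroup.mem_center_iff]
  intro g
  -- the automorphism of the commutator subgroup
  let f : G →* MulAut (commutator G) := MulAut.conjNormal
  have h1 : orderOf (f g) ∣ m := ((orderOf_map_dvd f g).trans (orderOf_dvd_natCard g)).trans hd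
  have h2 : orderOf (f g) ∣ m.totient := by
    refine (orderOf_dvd_natCard (f g)).trans ?_
    rw [IsCyclic.card_mulAut]
    exact Nat.totient_dvd_of_dvd ((Subgroup.card_subgroup_dvd_card (commutator G)).trans hd)
  have h3 : orderOf (f g) = 1 := Nat.eq_one_of_dvd_coprimes hm h1 h2
  rw [orderOf_eq_one_iff] at h3
  have h4 := congrArg (fun t : MulAut (commutator G) => ((t ⟨c, hc⟩ : commutator G) : G)) h3
  have h5 : g * c * g⁻¹ = c := h4
  rw [mul_inv_eq_iff_eq_mul] at h5
  exact h5

variable {n p : ℕ} {F : Vec n → Vec n} {A B : Aff n}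

theorem facts_ten' (h10 : n = 10) (hF : IsAPN F) (hbij : Function.Bijective F)
    (hc : ∀ x, F (A x) = B (F x)) (hp : p.Prime) (hA : A ^ p = 1) (hne : A ≠ 1) :
    ((p = 11 ∨ p = 31) ∧ (univ.filter (fun x : Vec n => A x = x)).card = 1) ∨
      ((p = 7 ∨ p = 73) ∧ (univ.filter (fun x : Vec n => A x = x)).card = 2) := by
  obtain ⟨f, hfix, hp2, hdvd, hlt, hf2, hf4, hcount, hthree, hsing⟩ :=
    prime_facts (by rw [h10]; exact ⟨5, rfl⟩) hF hbij hc hp hA hne
  rw [h10] at hdvd hlt hcount hsing
  have hf : f < 5 := by omega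
  interval_cases f
  · have h1 := prime_dvd hp (l := [3, 11, 31]) (m := 2 ^ (10 - 0) - 1) (by norm_num)
      (by intro q hq; simp at hq; rcases hq with rfl | rfl | rfl <;> norm_num) hdvd
    simp at h1
    left
    refine ⟨?_, by rw [hfix]; norm_num⟩
    rcases h1 with h1 | h1 | h1
    · have := hthree h1
      omega
    · omega
    · omega
  · have h1 := prime_dvd hp (l := [7, 73]) (m := 2 ^ (10 - 1) - 1) (by norm_num)
      (by intro q hq; simp at hq; rcases hq with rfl | rfl <;> norm_num) hdvd
    simp at h1
    right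
    exact ⟨h1, by rw [hfix]; norm_num⟩
  · exact absurd rfl hf2
  · have h1 := prime_dvd hp (l := [127]) (m := 2 ^ (10 - 3) - 1) (by norm_num)
      (by intro q hq; simp at hq; rw [hq]; norm_num) hdvd
    simp at h1
    exfalso
    rw [h1] at hcount
    norm_num at hcount
  · exact absurd rfl hf4

/-- an odd-order map commuting with a map with at most two fixed points fixes them -/
theorem fix_of_comm (A C : Aff n) {N : ℕ} (hN : Odd N) (hA : A ^ N = 1)
    (hcomm : ∀ x, C (A x) = A (C x))
    (h2 : (univ.filter (fun x : Vec n => C x = x)).card ≤ 2) {x : Vec n} (h : C x = x) :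
    A x = x := by
  have h3 : C (A x) = A x := by rw [hcomm, h]
  have h4 : C (A (A x)) = A (A x) := by rw [hcomm, h3]
  by_contra hne
  obtain ⟨k, hk⟩ := hN
  have h5 : A (A x) ≠ x := by
    intro h6
    apply hne
    have h7 : ∀ k : ℕ, (A ^ (2 * k)) x = x := by
      intro k
      induction k with
      | zero => rfl
      | succ k ih =>
        have e : 2 * (k + 1) = 2 * k + 1 + 1 := by ring
        rw [e, pow_apply_succ, pow_apply_succ, ih, h6]
    have h8 : (A ^ N) x = A x := by rw [hk, pow_apply_succ, h7]
    rw [hA] at h8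
    exact h8.symm
  have h6 : A x ≠ A (A x) := fun h7 => hne (A.injective h7).symm
  have h7 : ({x, A x, A (A x)} : Finset (Vec n)) ⊆ univ.filter (fun x : Vec n => C x = x) := by
    intro y hy
    rw [mem_filter]
    refine ⟨mem_univ _, ?_⟩
    simp only [mem_insert, mem_singleton] at hy
    rcases hy with rfl | rfl | rfl
    · exact h
    · exact h3
    · exact h4
  have h8 := card_le_card h7
  have h9 : ({x, A x, A (A x)} : Finset (Vec n)).card = 3 := by
    rw [card_eq_three]
    exact ⟨x, A x, A (A x), fun h => hne h.symm, fun h => h5 h.symm, h6, rfl⟩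
  omega

theorem sq_dvd (hn : Even n) (hF : IsAPN F) (hbij : Function.Bijective F) (hp : p.Prime) (c : ℕ)
    (hc2 : c ≤ 2) (hcn : c ≤ 2 ^ n)
    (H : ∀ g : Sym F, orderOf g = p → (univ.filter (fun x : Vec n => fst F g x = x)).card = c)
    (hd : p * p ∣ Nat.card (Sym F)) : p * p ∣ 2 ^ n - c := by
  have : Finite (Aff n × Aff n) := inferInstance
  have : Finite (Sym F) := inferInstance
  have : Fact p.Prime := ⟨hp⟩
  rw [← sq] at hd
  obtain ⟨K, hK⟩ := Sylow.exists_subgroup_card_pow_prime p hd
  let _ : Fintype K := Fintype.ofFinite _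
  have hfix : ∀ g : K, g ≠ 1 →
      (univ.filter (fun x : Vec n => ((fst F).comp K.subtype) g x = x)).card = c := by
    intro g hg
    have hg' : (g : Sym F) ≠ 1 := fun h => hg (Subtype.ext h)
    refine fix_of_prime hn hF hbij (g : Sym F) hg' c hc2 fun m hm => ?_
    refine H _ ?_
    have h1 : orderOf ((g : Sym F) ^ m) ∣ p ^ 2 := by
      rw [← hK]
      have h2 : orderOf ((g : Sym F) ^ m) = orderOf (g ^ m) := by
        rw [← Subgroup.coe_pow, Subgroup.orderOf_coe]
      rw [h2]
      exact orderOf_dvd_natCard _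
    exact (Nat.prime_dvd_prime_iff_eq hm hp).1 (hm.dvd_of_dvd_pow h1)
  obtain ⟨k, hk⟩ := burnside ((fst F).comp K.subtype) c hfix
  rw [← Nat.card_eq_fintype_card, hK] at hk
  rw [← sq]
  have h1 : p ^ 2 ∣ (2 ^ n - c) + p ^ 2 * c := by
    have h2 : (2 ^ n - c) + p ^ 2 * c = k * p ^ 2 := by
      rw [← hk, Nat.sub_mul, one_mul]
      have h3 : c ≤ p ^ 2 * c := Nat.le_mul_of_pos_left c (pow_pos hp.pos 2)
      omega
    rw [h2]
    exact dvd_mul_left _ _
  exact (Nat.dvd_add_left (dvd_mul_right _ _)).1 h1

/-- in dimension ten -/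
theorem card_ten (h10 : n = 10) (hF : IsAPN F) (hbij : Function.Bijective F) :
    Nat.card (Sym F) ∣ 341 ∨ Nat.card (Sym F) ∣ 511 := by
  have hn : Even n := by rw [h10]; exact ⟨5, rfl⟩
  have : Finite (Aff n × Aff n) := inferInstance
  have : Finite (Sym F) := inferInstance
  have hfacts : ∀ (g : Sym F) (p : ℕ), p.Prime → orderOf g = p →
      ((p = 11 ∨ p = 31) ∧ (univ.filter (fun x : Vec n => fst F g x = x)).card = 1) ∨
      ((p = 7 ∨ p = 73) ∧ (univ.filter (fun x : Vec n => fst F g x = x)).card = 2) := by
    intro g p hp hg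
    exact facts_ten' h10 hF hbij (A := fst F g) (B := g.1.2) g.2 hp
      (fst_pow hg) (fst_ne hbij (ne_one_of_prime hp hg))
  have hprime : ∀ p : ℕ, p.Prime → p ∣ Nat.card (Sym F) → p = 7 ∨ p = 11 ∨ p = 31 ∨ p = 73 := by
    intro p hp hd
    have : Fact p.Prime := ⟨hp⟩
    obtain ⟨g, hg⟩ := exists_prime_orderOf_dvd_card' p hd
    have := hfacts g p hp hg
    omega
  have hpow : 2 ^ n = 1024 := by rw [h10]; norm_num
  have hsq : Squarefree (Nat.card (Sym F)) := by
    rw [Nat.squarefree_iff_prime_squarefree]
    rintro p hp hd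
    have h1 := hprime p hp ((dvd_mul_right p p).trans hd)
    have hcase : (p = 11 ∨ p = 31) ∨ (p = 7 ∨ p = 73) := by omega
    rcases hcase with h | h
    · have h2 := sq_dvd hn hF hbij hp 1 (by norm_num) (by rw [hpow]; norm_num) (fun g hg => by
        rcases hfacts g p hp hg with h3 | h3
        · exact h3.2
        · omega) hd
      rw [hpow] at h2
      rcases h with rfl | rfl <;> omega
    · have h2 := sq_dvd hn hF hbij hp 2 (by norm_num) (by rw [hpow]; norm_num) (fun g hg => by
        rcases hfacts g p hp hg with h3 | h3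
        · omega
        · exact h3.2) hd
      rw [hpow] at h2
      rcases h with rfl | rfl <;> omega
  have hprod := Nat.prod_primeFactors_of_squarefree hsq
  have hsub : (Nat.card (Sym F)).primeFactors ⊆ {7, 11, 31, 73} := by
    intro p hp
    rw [Nat.mem_primeFactors] at hp
    have := hprime p hp.1 hp.2.1
    simp only [mem_insert, mem_singleton]
    omega
  have hdm : Nat.card (Sym F) ∣ 174251 := by
    rw [← hprod]
    have h1 := prod_dvd_prod_of_subset _ _ (fun p => p) hsub
    refine h1.trans ?_
    norm_num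
  have hco : Nat.Coprime 174251 (Nat.totient 174251) := by
    have h1 : Nat.totient 174251 = 129600 := by
      have e : 174251 = 7 * (11 * (31 * 73)) := by norm_num
      rw [e, Nat.totient_mul (by norm_num), Nat.totient_mul (by norm_num),
        Nat.totient_mul (by norm_num), Nat.totient_prime (by norm_num),
        Nat.totient_prime (by norm_num), Nat.totient_prime (by norm_num),
        Nat.totient_prime (by norm_num)]
    rw [h1]
    norm_num
  have hcomm := comm_of_coprime hsq hdm hco
  -- no mixture
  have hmix : ¬ ((∃ p, (p = 11 ∨ p = 31) ∧ p ∣ Nat.card (Sym F)) ∧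
      (∃ p, (p = 7 ∨ p = 73) ∧ p ∣ Nat.card (Sym F))) := by
    rintro ⟨⟨p, hp, hpd⟩, ⟨r, hr, hrd⟩⟩
    have hpp : p.Prime := by rcases hp with rfl | rfl <;> norm_num
    have hrp : r.Prime := by rcases hr with rfl | rfl <;> norm_num
    have : Fact p.Prime := ⟨hpp⟩
    have : Fact r.Prime := ⟨hrp⟩
    obtain ⟨g, hg⟩ := exists_prime_orderOf_dvd_card' p hpd
    obtain ⟨h, hh⟩ := exists_prime_orderOf_dvd_card' r hrd
    have h1 : (univ.filter (fun x : Vec n => fst F g x = x)).card = 1 := by
      rcases hfacts g p hpp hg with h3 | h3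
      · exact h3.2
      · omega
    have h2 : (univ.filter (fun x : Vec n => fst F h x = x)).card = 2 := by
      rcases hfacts h r hrp hh with h3 | h3
      · omega
      · exact h3.2
    have hc : ∀ x, fst F h (fst F g x) = fst F g (fst F h x) := by
      intro x
      have h4 := congrArg (fun t : Sym F => fst F t x) (hcomm h g)
      simp only [map_mul] at h4
      exact h4
    have hodd : Odd p := by rcases hp with rfl | rfl <;> decide
    have h5 : univ.filter (fun x : Vec n => fst F h x = x) ⊆
        univ.filter (fun x : Vec n => fst F g x = x) := by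
      intro x hx
      rw [mem_filter] at hx ⊢
      exact ⟨mem_univ _, fix_of_comm (fst F g) (fst F h) hodd (fst_pow hg) hc (by rw [h2]) hx.2⟩
    have h6 := card_le_card h5
    omega
  by_cases hA : ∃ p, (p = 11 ∨ p = 31) ∧ p ∣ Nat.card (Sym F)
  · left
    have hB : ¬ ∃ p, (p = 7 ∨ p = 73) ∧ p ∣ Nat.card (Sym F) := fun h => hmix ⟨hA, h⟩
    have hsub' : (Nat.card (Sym F)).primeFactors ⊆ {11, 31} := by
      intro p hp
      rw [Nat.mem_primeFactors] at hp
      have h1 := hprime p hp.1 hp.2.1
      simp only [mem_insert, mem_singleton]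
      by_contra hne
      exact hB ⟨p, by omega, hp.2.1⟩
    rw [← hprod]
    have h1 := prod_dvd_prod_of_subset _ _ (fun p => p) hsub'
    refine h1.trans ?_
    norm_num
  · right
    have hsub' : (Nat.card (Sym F)).primeFactors ⊆ {7, 73} := by
      intro p hp
      rw [Nat.mem_primeFactors] at hp
      have h1 := hprime p hp.1 hp.2.1
      simp only [mem_insert, mem_singleton]
      by_contra hne
      exact hA ⟨p, by omega, hp.2.1⟩
    rw [← hprod]
    have h1 := prod_dvd_prod_of_subset _ _ (fun p => p) hsub'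
    refine h1.trans ?_
    norm_num

end Pool.Agent.H28.APN3
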